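import Pool.Agent.Lib.P670edc.Sector

set_option autoImplicit false

open Real MeasureTheory

namespace Pool.Agent.Lib.P670edc

lemma volume_std_triangle_prod :
    volume {q : ℝ × ℝ | 0 ≤ q.1 ∧ 0 ≤ q.2 ∧ q.1 + q.2 ≤ 1} = ENNReal.ofReal (1 / 2) := by
  set S : Set (ℝ × ℝ) := {q : ℝ × ℝ | 0 ≤ q.1 ∧ 0 ≤ q.2 ∧ q.1 + q.2 ≤ 1} with hS
  have hSm : MeasurableSet S := by
    apply MeasurableSet.inter
    · exact measurableSet_le measurable_const measurable_fst
    · apply MeasurableSet.inter
      · exact measurableSet_le measurable_const measurable_snd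
      · exact measurableSet_le (measurable_fst.add measurable_snd) measurable_const
  rw [Measure.volume_eq_prod, Measure.prod_apply hSm]
  have h1 : ∀ x : ℝ, volume (Prod.mk x ⁻¹' S) =
      (Set.Icc (0 : ℝ) 1).indicator (fun x => ENNReal.ofReal (1 - x)) x := by
    intro x
    by_cases hx : x ∈ Set.Icc (0 : ℝ) 1
    · rw [Set.indicator_of_mem hx]
      have : Prod.mk x ⁻¹' S = Set.Icc 0 (1 - x) := by
        ext y
        simp only [hS, Set.mem_preimage, Set.mem_ofPred_eq, Set.mem_Icc]
        constructor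
        · rintro ⟨_, h2, h3⟩; exact ⟨h2, by linarith⟩
        · rintro ⟨h2, h3⟩; exact ⟨hx.1, h2, by linarith⟩
      rw [this, Real.volume_Icc, sub_zero]
    · rw [Set.indicator_of_notMem hx]
      have : Prod.mk x ⁻¹' S = ∅ := by
        ext y
        simp only [hS, Set.mem_preimage, Set.mem_ofPred_eq, Set.mem_empty_iff_false, iff_false]
        rintro ⟨h1, h2, h3⟩
        exact hx ⟨h1, by linarith⟩
      rw [this, measure_empty]
  simp_rw [h1]
  rw [lintegral_indicator measurableSet_Icc, ← ofReal_integral_eq_lintegral_ofReal]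
  · congr 1
    rw [integral_Icc_eq_integral_Ioc, ← intervalIntegral.integral_of_le zero_le_one,
      intervalIntegral.integral_sub intervalIntegrable_const
        intervalIntegral.intervalIntegrable_id, integral_id]
    simp
    norm_num
  · exact (continuous_const.sub continuous_id).integrableOn_Icc
  · apply (ae_restrict_iff' measurableSet_Icc).mpr
    exact Filter.Eventually.of_forall fun x hx => by
      have := hx.2
      simp only [Pi.zero_apply]
      linarith

/-- The standard triangle in the Euclidean plane. -/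
def stdTri : Set Plane := {v | 0 ≤ v 0 ∧ 0 ≤ v 1 ∧ v 0 + v 1 ≤ 1}

lemma volume_stdTri : volume stdTri = ENNReal.ofReal (1 / 2) := by
  have h1 : MeasurePreserving (fun v : Plane => MeasurableEquiv.finTwoArrow (α := ℝ) (v.ofLp))
      volume volume :=
    (volume_preserving_finTwoArrow ℝ).comp (PiLp.volume_preserving_ofLp (Fin 2))
  have hSm : MeasurableSet {q : ℝ × ℝ | 0 ≤ q.1 ∧ 0 ≤ q.2 ∧ q.1 + q.2 ≤ 1} := by
    apply MeasurableSet.inter
    · exact measurableSet_le measurable_const measurable_fst
    · apply MeasurableSet.inter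
      · exact measurableSet_le measurable_const measurable_snd
      · exact measurableSet_le (measurable_fst.add measurable_snd) measurable_const
  have h2 := h1.measure_preimage hSm.nullMeasurableSet
  rw [volume_std_triangle_prod] at h2
  rw [← h2]
  rfl

/-- The linear map sending the standard basis to `a, b`. -/
noncomputable def linMap (a b : Plane) : Plane →ₗ[ℝ] Plane :=
  Matrix.toEuclideanLin !![a 0, b 0; a 1, b 1]

lemma linMap_apply (a b v : Plane) : linMap a b v = v 0 • a + v 1 • b := by
  unfold linMap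
  ext i
  rw [Matrix.toEuclideanLin_apply]
  fin_cases i
  · simp [Matrix.mulVec, dotProduct, Fin.sum_univ_two]; ring
  · simp [Matrix.mulVec, dotProduct, Fin.sum_univ_two]; ring

lemma linMap_det (a b : Plane) : LinearMap.det (linMap a b) = a 0 * b 1 - b 0 * a 1 := by
  unfold linMap
  rw [Matrix.toEuclideanLin_eq_toLin, LinearMap.det_toLin, Matrix.det_fin_two_of]

lemma det_sq (a b : Plane) : (a 0 * b 1 - b 0 * a 1) ^ 2 =
    ‖a‖ ^ 2 * ‖b‖ ^ 2 - (inner ℝ a b) ^ 2 := by
  rw [EuclideanSpace.norm_sq_eq, EuclideanSpace.norm_sq_eq, PiLp.inner_apply]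
  simp only [Fin.sum_univ_two, Real.norm_eq_abs, sq_abs]
  simp
  ring

lemma convexHull_triple (p x y : Plane) :
    convexHull ℝ ({p, x, y} : Set Plane) = (fun v => p + v) '' (linMap (x - p) (y - p) '' stdTri) := by
  rw [convexHull_insert ⟨x, by simp⟩, convexHull_pair]
  ext q
  rw [mem_convexJoin]
  constructor
  · rintro ⟨a, ha, z, hz, hq⟩
    rw [Set.mem_singleton_iff] at ha
    subst ha
    obtain ⟨s, t, hs, ht, hst, rfl⟩ := hz
    obtain ⟨u, w, hu, hw, huw, rfl⟩ := hq
    refine ⟨_, ⟨!₂[w * s, w * t], ?_, rfl⟩, ?_⟩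
    · refine ⟨?_, ?_, ?_⟩
      · simpa using mul_nonneg hw hs
      · simpa using mul_nonneg hw ht
      · simp
        rw [← mul_add, hst, mul_one]
        linarith
    · rw [linMap_apply]
      have hu' : u = 1 - w := by linarith
      have hs' : s = 1 - t := by linarith
      subst hu' hs'
      simp
      module
  · rintro ⟨_, ⟨v, ⟨h0, h1, h2⟩, rfl⟩, rfl⟩
    refine ⟨p, rfl, ?_⟩
    by_cases hz : v 0 + v 1 = 0
    · refine ⟨x, left_mem_segment ℝ x y, 1, 0, by norm_num, le_rfl, by norm_num, ?_⟩
      have e0 : v 0 = 0 := by linarith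
      have e1 : v 1 = 0 := by linarith
      simp only [linMap_apply, e0, e1]
      module
    · have hpos : 0 < v 0 + v 1 := lt_of_le_of_ne (by linarith) (Ne.symm hz)
      refine ⟨(v 0 / (v 0 + v 1)) • x + (v 1 / (v 0 + v 1)) • y,
        ⟨_, _, by positivity, by positivity, by field_simp, rfl⟩,
        1 - (v 0 + v 1), v 0 + v 1, by linarith, hpos.le, by ring, ?_⟩
      simp only [linMap_apply, smul_add, smul_smul]
      rw [mul_div_cancel₀ _ hz, mul_div_cancel₀ _ hz]
      module

/-- Area of a triangle. -/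
lemma volume_triangle (p x y : Plane) :
    volume (convexHull ℝ ({p, x, y} : Set Plane)) =
      ENNReal.ofReal (sqrt (‖x - p‖ ^ 2 * ‖y - p‖ ^ 2 - (inner ℝ (x - p) (y - p)) ^ 2) / 2) := by
  rw [convexHull_triple, Set.image_add_left, measure_preimage_add,
    Measure.addHaar_image_linearMap, volume_stdTri, linMap_det, ← det_sq, sqrt_sq_eq_abs,
    ← ENNReal.ofReal_mul (abs_nonneg _)]
  congr 1
  ring

end Pool.Agent.Lib.P670edc
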