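import Mathlib

set_option autoImplicit false

open Real MeasureTheory Metric

namespace Pool.Agent.Lib.P670edc

/-- The Euclidean plane. -/
abbrev Plane := EuclideanSpace ℝ (Fin 2)

/-- The constant `c(μ) = 4 arccos((1+μ)/2) / ((1+μ) √((3+μ)(1-μ)))`. -/
noncomputable def cμ (μ : ℝ) : ℝ :=
  4 * arccos ((1 + μ) / 2) / ((1 + μ) * sqrt ((3 + μ) * (1 - μ)))

section
variable {n : ℕ} (μ : ℝ) (x : Fin n → Plane) (ρ : Fin n → ℝ)

/-- The `i`-th open disk, with center `x i` and radius `ρ i`. -/
def disk (i : Fin n) : Set Plane := ball (x i) (ρ i)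

/-- The `μ`-core of the `i`-th disk. -/
def core (i : Fin n) : Set Plane := ball (x i) (μ * ρ i)

/-- The disks with centers `x i` and radii `ρ i > 0` form a generalized Minkowski arrangement of
order `μ`: no member overlaps the `μ`-core of a different member. -/
def IsArrangement : Prop :=
  (∀ i, 0 < ρ i) ∧ ∀ i j, i ≠ j → max (ρ i + μ * ρ j) (ρ j + μ * ρ i) ≤ dist (x i) (x j)

/-- The union of the disks. -/
def unionSet : Set Plane := ⋃ i, disk x ρ i

/-- The outer shell: the union of all segments joining a point of the boundary of the union to the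
center of a member whose boundary circle contains it. -/
def outerShell : Set Plane :=
  {q | ∃ i, ∃ p, p ∈ sphere (x i) (ρ i) ∧ p ∈ frontier (unionSet x ρ) ∧ q ∈ segment ℝ (x i) p}

/-- The convex angular region with apex `p` bounded by the rays from `p` through `a` and `b`. -/
def angularRegion (p a b : Plane) : Set Plane :=
  {q | ∃ s t : ℝ, 0 ≤ s ∧ 0 ≤ t ∧ q = p + s • (a - p) + t • (b - p)}

/-- The point `p` on the boundary of the union and the members `i`, `j` give rise to a triangle of
the inner shell. -/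
def IsInnerTriple (i j : Fin n) (p : Plane) : Prop :=
  p ∈ frontier (unionSet x ρ) ∧ p ∈ sphere (x i) (ρ i) ∧ p ∈ sphere (x j) (ρ j) ∧
    ¬ Collinear ℝ {x i, x j, p} ∧
    ∀ k, k ≠ i → k ≠ j → p ∈ sphere (x k) (ρ k) → x k ∉ interior (angularRegion p (x i) (x j))

/-- The inner shell. -/
def innerShell : Set Plane :=
  {q | ∃ i j p, IsInnerTriple x ρ i j p ∧ q ∈ convexHull ℝ {p, x i, x j}}

/-- The digon `B_i ∩ B_j` touches the `μ`-cores of both `B_i` and `B_j`. -/
def IsThick (i j : Fin n) : Prop :=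
  (closure (disk x ρ i ∩ disk x ρ j) ∩ closure (core μ x ρ i)).Nonempty ∧
    (closure (disk x ρ i ∩ disk x ρ j) ∩ closure (core μ x ρ j)).Nonempty

/-- The digon `B_i ∩ B_j` is contained in no third member. -/
def IsFree (i j : Fin n) : Prop :=
  ∀ k, k ≠ i → k ≠ j → ¬ (disk x ρ i ∩ disk x ρ j ⊆ disk x ρ k)

end

end Pool.Agent.Lib.P670edc
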