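import Pool.Agent.Lib.P670edc.Defs

set_option autoImplicit false

open Real

namespace Pool.Agent.Lib.P670edc

/-- `x / sin x` is increasing on `(0, π)`, in cross-multiplied form. -/
lemma mul_sin_lt {x y : ℝ} (hx : 0 < x) (hxy : x < y) (hy : y < π) : x * sin y < y * sin x := by
  have hy00 : (0:ℝ) < y := by linarith
  have h := strictConcaveOn_sin_Icc.2 (show (0:ℝ) ∈ Set.Icc 0 π from ⟨le_rfl, pi_pos.le⟩)
    (show y ∈ Set.Icc 0 π from ⟨by linarith, hy.le⟩) (by linarith)
    (show (0:ℝ) < 1 - x / y by rw [sub_pos, div_lt_one (by linarith)]; exact hxy)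
    (show (0:ℝ) < x / y by positivity) (by ring)
  simp only [smul_eq_mul, sin_zero, mul_zero, zero_add] at h
  rw [div_mul_cancel₀ x (by linarith : y ≠ 0)] at h
  have hy0 : 0 < y := by linarith
  calc x * sin y = y * (x / y * sin y) := by field_simp
    _ < y * sin x := mul_lt_mul_of_pos_left h hy0

lemma mul_sin_le {x y : ℝ} (hx : 0 < x) (hxy : x ≤ y) (hy : y < π) : x * sin y ≤ y * sin x := by
  rcases hxy.lt_or_eq with h | h
  · exact (mul_sin_lt hx h hy).le
  · rw [h]

/-- The local inequality in terms of angles: `ρ₁ sin a = ρ₂ sin b`. -/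
lemma angle_ineq {r s a b : ℝ} (hs : 0 < s) (hsr : s ≤ r) (ha : 0 < a) (hb : 0 < b)
    (ha2 : a < π / 2) (hb2 : b < π / 2) (h : r * sin a = s * sin b) :
    r ^ 2 * a + s ^ 2 * b ≤ r * s * (a + b) ∧
      (r ^ 2 * a + s ^ 2 * b = r * s * (a + b) ↔ r = s) := by
  have hr : 0 < r := by linarith
  have hsa : 0 < sin a := sin_pos_of_pos_of_lt_pi ha (by linarith)
  have hsb : 0 < sin b := sin_pos_of_pos_of_lt_pi hb (by linarith)
  have key : r ^ 2 * a + s ^ 2 * b - r * s * (a + b) = (r - s) * (r * a - s * b) := by ring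
  have h1 : s < r → r * a - s * b < 0 := by
    intro hlt
    have hab : a < b := by
      by_contra hcon
      push Not at hcon
      have h2 : sin b ≤ sin a := sin_le_sin_of_le_of_le_pi_div_two (by linarith) ha2.le hcon
      have : s * sin b < r * sin a := by
        calc s * sin b < r * sin b := mul_lt_mul_of_pos_right hlt hsb
          _ ≤ r * sin a := mul_le_mul_of_nonneg_left h2 hr.le
      linarith
    have h3 := mul_sin_lt ha hab (by linarith)
    -- a sin b < b sin a
    have h4 : (r * a) * sin b < (s * b) * sin b := by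
      calc (r * a) * sin b = r * (a * sin b) := by ring
        _ < r * (b * sin a) := mul_lt_mul_of_pos_left h3 hr
        _ = b * (r * sin a) := by ring
        _ = b * (s * sin b) := by rw [h]
        _ = (s * b) * sin b := by ring
    have := lt_of_mul_lt_mul_right h4 hsb.le
    linarith
  rcases hsr.lt_or_eq with hlt | heq
  · have h2 := h1 hlt
    have h3 : (r - s) * (r * a - s * b) < 0 := mul_neg_of_pos_of_neg (by linarith) h2
    refine ⟨by linarith, ⟨fun h4 => ?_, fun h4 => ?_⟩⟩
    · linarith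
    · linarith
  · subst heq
    have : (s - s) * (s * a - s * b) = 0 := by ring
    exact ⟨by linarith, ⟨fun _ => rfl, fun _ => by linarith⟩⟩

section
variable {μ r s d : ℝ}

/-- angle at the center of the disk of radius `r`. -/
noncomputable def ang (r s d : ℝ) : ℝ := arccos ((r ^ 2 + d ^ 2 - s ^ 2) / (2 * r * d))

/-- area of the kite -/
noncomputable def kite (r s d : ℝ) : ℝ := sqrt (r ^ 2 * s ^ 2 - ((r ^ 2 + s ^ 2 - d ^ 2) / 2) ^ 2)

lemma kite_comm (r s d : ℝ) : kite r s d = kite s r d := by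
  unfold kite; congr 1; ring

lemma heron (r s d : ℝ) : 4 * (r ^ 2 * s ^ 2) - (r ^ 2 + s ^ 2 - d ^ 2) ^ 2 =
    (r + s + d) * (r + s - d) * (d + r - s) * (d + s - r) := by ring

lemma heron' (r s d : ℝ) : 4 * (r ^ 2 * d ^ 2) - (r ^ 2 + d ^ 2 - s ^ 2) ^ 2 =
    (r + s + d) * (r + s - d) * (d + r - s) * (d + s - r) := by ring

lemma kite_sq_pos (hr : 0 < r) (hs : 0 < s) (h1 : d < r + s) (h2 : r < d + s) (h3 : s < d + r) :
    0 < r ^ 2 * s ^ 2 - ((r ^ 2 + s ^ 2 - d ^ 2) / 2) ^ 2 := by
  have h : 0 < (r + s + d) * (r + s - d) * (d + r - s) * (d + s - r) := by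
    have e1 : 0 < r + s + d := by linarith
    have e2 : 0 < r + s - d := by linarith
    have e3 : 0 < d + r - s := by linarith
    have e4 : 0 < d + s - r := by linarith
    positivity
  rw [← heron] at h
  nlinarith

/-- Everything about one overlapping pair. -/
lemma sin_ang (hr : 0 < r) (hs : 0 < s) (hd : 0 < d) (h1 : d < r + s) (h2 : r < d + s)
    (h3 : s < d + r) : sin (ang r s d) = kite r s d / (r * d) := by
  unfold ang kite
  rw [sin_arccos]
  have hk := kite_sq_pos hr hs h1 h2 h3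
  rw [eq_div_iff (by positivity)]
  rw [show r * d = sqrt ((r * d) ^ 2) from (sqrt_sq (by positivity)).symm]
  rw [← sqrt_mul']
  · congr 1
    field_simp
    ring
  · positivity

lemma cos_ang (hr : 0 < r) (hs : 0 < s) (hd : 0 < d) (h1 : d ≤ r + s) (h2 : r ≤ d + s)
    (h3 : s ≤ d + r) : cos (ang r s d) = (r ^ 2 + d ^ 2 - s ^ 2) / (2 * r * d) := by
  unfold ang
  apply cos_arccos
  · rw [le_div_iff₀ (by positivity)]
    nlinarith [mul_nonneg (by linarith : 0 ≤ d + r - s) (by linarith : 0 ≤ d + r + s)]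
  · rw [div_le_iff₀ (by positivity)]
    nlinarith [mul_nonneg (by linarith : 0 ≤ s - (d - r)) (by linarith : 0 ≤ s + (d - r))]

lemma ang_pos (hr : 0 < r) (hs : 0 < s) (hd : 0 < d) (h1 : d < r + s) (h2 : r < d + s) :
    0 < ang r s d := by
  unfold ang
  rw [arccos_pos, div_lt_iff₀ (by positivity)]
  nlinarith [mul_pos (by linarith : 0 < s - (d - r)) (by linarith : 0 < s + (d - r))]

lemma ang_lt (hr : 0 < r) (hs : 0 < s) (hd : s ≤ d) : ang r s d < π / 2 := by
  unfold ang
  rw [arccos_lt_pi_div_two]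
  have : 0 < d := by linarith
  apply div_pos _ (by positivity)
  nlinarith

/-- The local inequality. -/
theorem local_ineq (hμ1 : sqrt 3 - 1 < μ) (hμ2 : μ < 1) (hs : 0 < s) (hsr : s ≤ r)
    (hd : r + μ * s ≤ d) (hd2 : d < r + s) :
    r ^ 2 * ang r s d + s ^ 2 * ang s r d ≤ cμ μ * kite r s d ∧
      (r ^ 2 * ang r s d + s ^ 2 * ang s r d = cμ μ * kite r s d ↔ r = s ∧ d = r + μ * s) := by
  have hs3 : 1 < sqrt 3 := by
    rw [show (1:ℝ) = sqrt 1 from sqrt_one.symm]
    exact sqrt_lt_sqrt (by norm_num) (by norm_num)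
  have hμ0 : 0 < μ := by linarith
  have hr : 0 < r := by linarith
  have hμs : 0 < μ * s := mul_pos hμ0 hs
  have hdr : r < d := by linarith
  have hd0 : 0 < d := by linarith
  have hsd : s ≤ d := by linarith
  set a := ang r s d with ha
  set b := ang s r d with hb
  set K := kite r s d with hK
  have ha0 : 0 < a := ang_pos hr hs hd0 hd2 (by linarith)
  have hb0 : 0 < b := ang_pos hs hr hd0 (by linarith) (by linarith)
  have ha2 : a < π / 2 := ang_lt hr hs hsd
  have hb2 : b < π / 2 := ang_lt hs hr hdr.le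
  have hsina : sin a = K / (r * d) := sin_ang hr hs hd0 hd2 (by linarith) (by linarith)
  have hsinb : sin b = K / (s * d) := by
    rw [hb, sin_ang hs hr hd0 (by linarith) (by linarith) (by linarith), kite_comm]
  have hcosa : cos a = (r ^ 2 + d ^ 2 - s ^ 2) / (2 * r * d) :=
    cos_ang hr hs hd0 hd2.le (by linarith) (by linarith)
  have hcosb : cos b = (s ^ 2 + d ^ 2 - r ^ 2) / (2 * s * d) :=
    cos_ang hs hr hd0 (by linarith) (by linarith) (by linarith)
  have hKpos : 0 < K := by
    rw [hK]; unfold kite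
    exact sqrt_pos.mpr (kite_sq_pos hr hs hd2 (by linarith) (by linarith))
  have hKsq : K ^ 2 = r ^ 2 * s ^ 2 - ((r ^ 2 + s ^ 2 - d ^ 2) / 2) ^ 2 := by
    rw [hK]; unfold kite
    exact sq_sqrt (kite_sq_pos hr hs hd2 (by linarith) (by linarith)).le
  have hsin : r * sin a = s * sin b := by
    rw [hsina, hsinb]; field_simp
  obtain ⟨hle, heq⟩ := angle_ineq hs hsr ha0 hb0 ha2 hb2 hsin
  -- the sum of the angles
  have hsinab : sin (a + b) = K / (r * s) := by
    rw [sin_add, hsina, hsinb, hcosa, hcosb]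
    field_simp
    ring
  have hcosab : cos (a + b) = (d ^ 2 - r ^ 2 - s ^ 2) / (2 * r * s) := by
    rw [cos_add, hsina, hsinb, hcosa, hcosb]
    have : K / (r * d) * (K / (s * d)) = K ^ 2 / (r * s * d ^ 2) := by field_simp
    rw [this, hKsq]
    field_simp
    ring
  set γ := arccos ((1 + μ) / 2) with hγ
  have hcosγ : cos γ = (1 + μ) / 2 := cos_arccos (by linarith) (by linarith)
  have hγ0 : 0 < γ := by rw [hγ, arccos_pos]; linarith
  have hγ2 : γ < π / 2 := by rw [hγ, arccos_lt_pi_div_two]; linarith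
  have hcos2γ : cos (2 * γ) = (μ ^ 2 + 2 * μ - 1) / 2 := by
    rw [cos_two_mul, hcosγ]; ring
  have hsinγ : sin γ = sqrt ((3 + μ) * (1 - μ)) / 2 := by
    rw [hγ, sin_arccos]
    rw [show (1 : ℝ) - ((1 + μ) / 2) ^ 2 = ((3 + μ) * (1 - μ)) / 2 ^ 2 by ring]
    rw [sqrt_div' _ (by norm_num), sqrt_sq (by norm_num)]
  have hsin2γ : sin (2 * γ) = (1 + μ) * sqrt ((3 + μ) * (1 - μ)) / 2 := by
    rw [sin_two_mul, hcosγ, hsinγ]; ring
  have hsin2γpos : 0 < sin (2 * γ) := sin_pos_of_pos_of_lt_pi (by linarith) (by linarith)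
  have hc : cμ μ = 2 * γ / sin (2 * γ) := by
    unfold cμ
    rw [hsin2γ, ← hγ]
    have h3 : 0 < sqrt ((3 + μ) * (1 - μ)) := sqrt_pos.mpr (by
      apply mul_pos <;> linarith)
    have h4 : (0 : ℝ) < 1 + μ := by linarith
    field_simp
    ring
  -- comparison of the angles
  have hcmp : cos (2 * γ) ≤ cos (a + b) := by
    rw [hcos2γ, hcosab, le_div_iff₀ (by positivity)]
    have h5 : (r + μ * s) ^ 2 ≤ d ^ 2 := by
      apply pow_le_pow_left₀ (by positivity) hd
    have h6 : 0 ≤ (1 - μ) * (1 + μ) * (s * (r - s)) :=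
      mul_nonneg (mul_nonneg (by linarith) (by linarith)) (mul_nonneg hs.le (by linarith))
    have h7 : (μ ^ 2 + 2 * μ - 1) / 2 * (2 * r * s) =
      (r + μ * s) ^ 2 - r ^ 2 - s ^ 2 - (1 - μ) * (1 + μ) * (s * (r - s)) := by ring
    linarith
  have hab : a + b ≤ 2 * γ := by
    by_contra hcon
    push Not at hcon
    have := cos_lt_cos_of_nonneg_of_le_pi (by linarith : 0 ≤ 2 * γ) (by linarith) hcon
    linarith
  have habpi : 2 * γ < π := by linarith
  have hab0 : 0 < a + b := by linarith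
  have hrs : r * s * sin (a + b) = K := by rw [hsinab]; field_simp
  have hle2 : r * s * (a + b) ≤ cμ μ * K := by
    rw [hc, ← hrs, div_mul_eq_mul_div, le_div_iff₀ hsin2γpos]
    have h5 := mul_sin_le hab0 hab habpi
    have h6 : 0 < r * s := by positivity
    calc r * s * (a + b) * sin (2 * γ) = (r * s) * ((a + b) * sin (2 * γ)) := by ring
      _ ≤ (r * s) * (2 * γ * sin (a + b)) := mul_le_mul_of_nonneg_left h5 h6.le
      _ = _ := by ring
  refine ⟨le_trans hle hle2, ?_, ?_⟩
  · intro h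
    have h7 : r ^ 2 * a + s ^ 2 * b = r * s * (a + b) := le_antisymm hle (by linarith)
    have hrs' := heq.mp h7
    refine ⟨hrs', ?_⟩
    have h8 : r * s * (a + b) = cμ μ * K := le_antisymm hle2 (by linarith)
    have h9 : a + b = 2 * γ := by
      by_contra hne
      have hlt : a + b < 2 * γ := lt_of_le_of_ne hab hne
      have h10 := mul_sin_lt hab0 hlt habpi
      rw [hc, ← hrs, div_mul_eq_mul_div, eq_div_iff hsin2γpos.ne'] at h8
      have h6 : 0 < r * s := by positivity
      have h13 : r * s * (a + b) * sin (2 * γ) < 2 * γ * (r * s * sin (a + b)) := by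
        calc r * s * (a + b) * sin (2 * γ) = (r * s) * ((a + b) * sin (2 * γ)) := by ring
          _ < (r * s) * (2 * γ * sin (a + b)) := mul_lt_mul_of_pos_left h10 h6
          _ = _ := by ring
      linarith
    have h11 : cos (a + b) = cos (2 * γ) := by rw [h9]
    rw [hcos2γ, hcosab, div_eq_iff (by positivity)] at h11
    subst hrs'
    have h12 : d ^ 2 = (r + μ * r) ^ 2 := by linear_combination h11
    have h13 : 0 ≤ r + μ * r := by positivity
    exact (pow_left_inj₀ hd0.le h13 (by norm_num)).mp h12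
  · rintro ⟨h1, h2⟩
    have h7 : r ^ 2 * a + s ^ 2 * b = r * s * (a + b) := heq.mpr h1
    rw [h7]
    have h11 : cos (a + b) = cos (2 * γ) := by
      rw [hcos2γ, hcosab, div_eq_iff (by positivity), h2, h1]
      ring
    have h9 : a + b = 2 * γ :=
      injOn_cos ⟨hab0.le, by linarith⟩ ⟨by linarith, habpi.le⟩ h11
    rw [hc, ← hrs, div_mul_eq_mul_div, eq_div_iff hsin2γpos.ne', h9]
    ring

end

end Pool.Agent.Lib.P670edc
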