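import Pool.Agent.Lib.P670edc.Triangle
import Pool.Agent.Lib.P670edc.LocalIneq

set_option autoImplicit false

open Real MeasureTheory Metric

namespace Pool.Agent.Lib.P670edc

/-- Two of the three Minkowski lower bounds are incompatible with an angle of at most 120°. -/
lemma pair_bound {μ r s a b t D : ℝ} (hμ1 : sqrt 3 - 1 < μ) (hμ2 : μ < 1) (hr : 0 < r) (hs : 0 < s)
    (ha : 0 ≤ a) (hb : 0 ≤ b) (har : a ≤ r) (hbs : b ≤ s) (ht : -(a * b) / 2 ≤ t)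
    (hD0 : 0 ≤ D) (hD : D ^ 2 = a ^ 2 + b ^ 2 - 2 * t)
    (h1 : r + μ * s ≤ D) (h2 : s + μ * r ≤ D) : False := by
  have hs3 : sqrt 3 ^ 2 = 3 := sq_sqrt (by norm_num)
  have hs31 : 1 < sqrt 3 := by
    rw [show (1:ℝ) = sqrt 1 from sqrt_one.symm]
    exact sqrt_lt_sqrt (by norm_num) (by norm_num)
  have hμ0 : 0 < μ := by linarith
  have hμq : 0 < μ ^ 2 + 2 * μ - 2 := by nlinarith
  have hDle : D ^ 2 ≤ r ^ 2 + s ^ 2 + r * s := by
    have e1 : a ^ 2 ≤ r ^ 2 := pow_le_pow_left₀ ha har 2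
    have e2 : b ^ 2 ≤ s ^ 2 := pow_le_pow_left₀ hb hbs 2
    have e3 : a * b ≤ r * s := mul_le_mul har hbs hb hr.le
    linarith
  have h1' : (r + μ * s) ^ 2 ≤ D ^ 2 := pow_le_pow_left₀ (by positivity) h1 2
  have h2' : (s + μ * r) ^ 2 ≤ D ^ 2 := pow_le_pow_left₀ (by positivity) h2 2
  rcases le_total s r with h | h
  · -- (2μ-1) r ≤ (1-μ²) s
    have k1 : s * ((2 * μ - 1) * r) ≤ s * ((1 - μ ^ 2) * s) := by nlinarith
    have k2 := le_of_mul_le_mul_left k1 hs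
    nlinarith [mul_nonneg (by nlinarith : 0 ≤ 2 * μ - 1) (by linarith : 0 ≤ r - s)]
  · have k1 : r * ((2 * μ - 1) * s) ≤ r * ((1 - μ ^ 2) * r) := by nlinarith
    have k2 := le_of_mul_le_mul_left k1 hr
    nlinarith [mul_nonneg (by nlinarith : 0 ≤ 2 * μ - 1) (by linarith : 0 ≤ s - r)]

/-- Among three nonzero vectors two make an angle of at most 120°. -/
lemma exists_pair (u v w : Plane) (hu : u ≠ 0) (hv : v ≠ 0) (hw : w ≠ 0) :
    -(‖u‖ * ‖v‖) / 2 ≤ inner ℝ u v ∨ -(‖v‖ * ‖w‖) / 2 ≤ inner ℝ v w ∨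
      -(‖u‖ * ‖w‖) / 2 ≤ inner ℝ u w := by
  by_contra hcon
  push Not at hcon
  obtain ⟨h1, h2, h3⟩ := hcon
  have hun : 0 < ‖u‖ := norm_pos_iff.mpr hu
  have hvn : 0 < ‖v‖ := norm_pos_iff.mpr hv
  have hwn : 0 < ‖w‖ := norm_pos_iff.mpr hw
  have h0 : 0 ≤ ‖‖u‖⁻¹ • u + ‖v‖⁻¹ • v + ‖w‖⁻¹ • w‖ ^ 2 := by positivity
  rw [norm_add_sq_real, norm_add_sq_real, norm_smul, norm_smul, norm_smul, norm_inv, norm_inv,
    norm_inv, norm_norm, norm_norm, norm_norm, inv_mul_cancel₀ hun.ne', inv_mul_cancel₀ hvn.ne',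
    inv_mul_cancel₀ hwn.ne', inner_add_left] at h0
  simp only [inner_smul_left, inner_smul_right, conj_trivial] at h0
  have k1 : ‖v‖⁻¹ * (‖u‖⁻¹ * inner ℝ u v) < -1 / 2 := by
    have : ‖v‖⁻¹ * (‖u‖⁻¹ * inner ℝ u v) < ‖v‖⁻¹ * (‖u‖⁻¹ * (-(‖u‖ * ‖v‖) / 2)) := by
      gcongr
    calc ‖v‖⁻¹ * (‖u‖⁻¹ * inner ℝ u v) < ‖v‖⁻¹ * (‖u‖⁻¹ * (-(‖u‖ * ‖v‖) / 2)) := this
      _ = -1 / 2 := by field_simp
  have k2 : ‖w‖⁻¹ * (‖v‖⁻¹ * inner ℝ v w) < -1 / 2 := by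
    have : ‖w‖⁻¹ * (‖v‖⁻¹ * inner ℝ v w) < ‖w‖⁻¹ * (‖v‖⁻¹ * (-(‖v‖ * ‖w‖) / 2)) := by
      gcongr
    calc ‖w‖⁻¹ * (‖v‖⁻¹ * inner ℝ v w) < ‖w‖⁻¹ * (‖v‖⁻¹ * (-(‖v‖ * ‖w‖) / 2)) := this
      _ = -1 / 2 := by field_simp
  have k3 : ‖w‖⁻¹ * (‖u‖⁻¹ * inner ℝ u w) < -1 / 2 := by
    have : ‖w‖⁻¹ * (‖u‖⁻¹ * inner ℝ u w) < ‖w‖⁻¹ * (‖u‖⁻¹ * (-(‖u‖ * ‖w‖) / 2)) := by
      gcongr
    calc ‖w‖⁻¹ * (‖u‖⁻¹ * inner ℝ u w) < ‖w‖⁻¹ * (‖u‖⁻¹ * (-(‖u‖ * ‖w‖) / 2)) := this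
      _ = -1 / 2 := by field_simp
  nlinarith

/-- The radial projection of `q` to the circle with center `c` and radius `r`. -/
noncomputable def radial (c : Plane) (r : ℝ) (q : Plane) : Plane := c + (r / ‖q - c‖) • (q - c)

lemma radial_mem {c : Plane} {r : ℝ} {q : Plane} (hr : 0 < r) (hq : q ≠ c) :
    ‖radial c r q - c‖ = r := by
  have : 0 < ‖q - c‖ := norm_pos_iff.mpr (sub_ne_zero.mpr hq)
  unfold radial
  rw [add_sub_cancel_left, norm_smul, norm_div, norm_norm, Real.norm_eq_abs, abs_of_pos hr,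
    div_mul_cancel₀ _ this.ne']

/-- squared distance of the radial projection to another point -/
lemma radial_dist_sq {c c' : Plane} {r : ℝ} {q : Plane} (hr : 0 < r) (hq : q ≠ c) :
    ‖radial c r q - c'‖ ^ 2 =
      r ^ 2 + ‖c' - c‖ ^ 2 - 2 * (r / ‖q - c‖) * inner ℝ (q - c) (c' - c) := by
  have h1 : radial c r q - c' = (radial c r q - c) - (c' - c) := by abel
  rw [h1, norm_sub_sq_real, radial_mem hr hq]
  unfold radial
  rw [add_sub_cancel_left, inner_smul_left]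
  simp only [conj_trivial]
  ring

/-- If the circles meet at an angle of at least 90°, then a point of the intersection of the two
closed disks is moved closer to the other center by the radial projection. -/
lemma lens {c c' : Plane} {r s : ℝ} {q : Plane} (hr : 0 < r) (hs : 0 < s) (hq : q ≠ c)
    (hqr : ‖q - c‖ ≤ r) (hqs : ‖q - c'‖ ≤ s) (hd : r ^ 2 + s ^ 2 ≤ ‖c' - c‖ ^ 2) :
    ‖radial c r q - c'‖ ≤ ‖q - c'‖ := by
  have hn : 0 < ‖q - c‖ := norm_pos_iff.mpr (sub_ne_zero.mpr hq)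
  set σ := ‖q - c‖ with hσ
  set T := inner ℝ (q - c) (c' - c) with hT
  have h1 : ‖q - c'‖ ^ 2 = σ ^ 2 + ‖c' - c‖ ^ 2 - 2 * T := by
    have h1 : q - c' = (q - c) - (c' - c) := by abel
    rw [h1, norm_sub_sq_real]; ring
  have h2 := radial_dist_sq (c' := c') hr hq
  rw [← hσ, ← hT] at h2
  -- T = σ t
  set t := T / σ with ht
  have hTt : T = σ * t := by rw [ht]; field_simp
  have h3 : r / σ * T = r * t := by rw [ht]; ring
  have h4 : ‖q - c'‖ ^ 2 ≤ s ^ 2 := pow_le_pow_left₀ (norm_nonneg _) hqs 2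
  have hrt : r ≤ t := by
    by_contra hcon
    push Not at hcon
    rw [h1, hTt] at h4
    rcases le_or_gt 0 t with h0 | h0
    · have : t ^ 2 < r ^ 2 := pow_lt_pow_left₀ hcon h0 (by norm_num)
      nlinarith [sq_nonneg (σ - t)]
    · nlinarith [mul_pos hn (neg_pos.mpr h0), pow_pos hr 2, pow_pos hn 2]
  have h5 : ‖radial c r q - c'‖ ^ 2 ≤ ‖q - c'‖ ^ 2 := by
    rw [h2, h1, hTt]
    have : 2 * (r / σ) * (σ * t) = 2 * (r * t) := by field_simp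
    rw [this]
    nlinarith [mul_nonneg (by linarith : 0 ≤ r - σ) (by linarith : 0 ≤ 2 * t - (r + σ))]
  exact (pow_le_pow_iff_left₀ (norm_nonneg _) (norm_nonneg _) (by norm_num)).mp h5

/-- Points of the triangle `p, c, c'` on the side of `c` of the altitude. -/
lemma tri_side {c c' p : Plane} {r s β γ : ℝ} (hr : 0 < r) (hs : 0 < s)
    (hpr : ‖p - c‖ = r) (hps : ‖p - c'‖ = s) (hrd : r ≤ ‖c' - c‖) (hsd : s ≤ ‖c' - c‖)
    (hβ : 0 ≤ β) (hγ : 0 ≤ γ) (hβγ : β + γ ≤ 1)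
    (hside : inner ℝ (β • (c' - c) + γ • (p - c)) (c' - c) ≤ inner ℝ (p - c) (c' - c)) :
    ‖β • (c' - c) + γ • (p - c)‖ ≤ r ∧
      (c + (β • (c' - c) + γ • (p - c)) ≠ c →
        ‖radial c r (c + (β • (c' - c) + γ • (p - c))) - c'‖ ≤ s) := by
  set w := c' - c with hw
  set z := p - c with hz
  set κ := inner ℝ z w with hκ
  set d := ‖w‖ with hd
  have hd0 : 0 < d := by linarith
  have hs2 : s ^ 2 = r ^ 2 + d ^ 2 - 2 * κ := by
    have h1 : p - c' = z - w := by rw [hz, hw]; abel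
    rw [← hps, h1, norm_sub_sq_real, hpr]; ring
  have hκ0 : 0 ≤ κ := by nlinarith
  have hκrd : κ ≤ r * d := by
    have := real_inner_le_norm z w
    rw [hpr] at this
    exact this
  have hin : inner ℝ (β • w + γ • z) w = β * d ^ 2 + γ * κ := by
    rw [inner_add_left, inner_smul_left, inner_smul_left, real_inner_self_eq_norm_sq]
    simp [hd, hκ]
  rw [hin] at hside
  have hns : ‖β • w + γ • z‖ ^ 2 = β ^ 2 * d ^ 2 + 2 * (β * γ * κ) + γ ^ 2 * r ^ 2 := by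
    rw [norm_add_sq_real, norm_smul, norm_smul, inner_smul_left, inner_smul_right,
      Real.norm_eq_abs, Real.norm_eq_abs, mul_pow, mul_pow, sq_abs, sq_abs, hpr,
      real_inner_comm z w, ← hκ]
    simp only [conj_trivial]
    ring
  have hγ1 : γ ≤ 1 := by linarith
  have hβd : β * d ^ 2 ≤ (1 - γ) * κ := by linarith
  have hκ2 : κ ^ 2 ≤ r ^ 2 * d ^ 2 := by
    rw [← mul_pow]; exact pow_le_pow_left₀ hκ0 hκrd 2
  -- β κ ≤ (1-γ) r²
  have hβκ : β * κ ≤ (1 - γ) * r ^ 2 := by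
    have h1 : β * κ * d ^ 2 ≤ (1 - γ) * r ^ 2 * d ^ 2 := by
      calc β * κ * d ^ 2 = (β * d ^ 2) * κ := by ring
        _ ≤ ((1 - γ) * κ) * κ := mul_le_mul_of_nonneg_right hβd hκ0
        _ = (1 - γ) * κ ^ 2 := by ring
        _ ≤ (1 - γ) * (r ^ 2 * d ^ 2) := mul_le_mul_of_nonneg_left hκ2 (by linarith)
        _ = _ := by ring
    exact le_of_mul_le_mul_right h1 (by positivity)
  have hle : ‖β • w + γ • z‖ ^ 2 ≤ r ^ 2 := by
    rw [hns]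
    have h1 : β ^ 2 * d ^ 2 ≤ β * ((1 - γ) * κ) := by
      calc β ^ 2 * d ^ 2 = β * (β * d ^ 2) := by ring
        _ ≤ β * ((1 - γ) * κ) := mul_le_mul_of_nonneg_left hβd hβ
    have h2 : (1 + γ) * (β * κ) ≤ (1 + γ) * ((1 - γ) * r ^ 2) :=
      mul_le_mul_of_nonneg_left hβκ (by linarith)
    nlinarith
  refine ⟨(pow_le_pow_iff_left₀ (norm_nonneg _) hr.le (by norm_num)).mp hle, fun hne => ?_⟩
  have hyne : β • w + γ • z ≠ 0 := by
    intro h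
    apply hne
    rw [h, add_zero]
  have hyn : 0 < ‖β • w + γ • z‖ := norm_pos_iff.mpr hyne
  have h1 := radial_dist_sq (c' := c') hr hne
  rw [add_sub_cancel_left, ← hw, hin, ← hd] at h1
  have h2 : ‖β • w + γ • z‖ ≤ β * d + γ * r := by
    refine le_trans (norm_add_le _ _) ?_
    rw [norm_smul, norm_smul, Real.norm_eq_abs, Real.norm_eq_abs, abs_of_nonneg hβ,
      abs_of_nonneg hγ, hpr]
  have h3 : κ * ‖β • w + γ • z‖ ≤ r * (β * d ^ 2 + γ * κ) := by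
    calc κ * ‖β • w + γ • z‖ ≤ κ * (β * d + γ * r) := mul_le_mul_of_nonneg_left h2 hκ0
      _ = (β * d) * κ + γ * r * κ := by ring
      _ ≤ (β * d) * (r * d) + γ * r * κ := by gcongr
      _ = _ := by ring
  have h4 : κ ≤ r / ‖β • w + γ • z‖ * (β * d ^ 2 + γ * κ) := by
    rw [div_mul_eq_mul_div, le_div_iff₀ hyn]
    exact h3
  have h5 : ‖radial c r (c + (β • w + γ • z)) - c'‖ ^ 2 ≤ s ^ 2 := by
    rw [h1, hs2]
    linarith
  exact (pow_le_pow_iff_left₀ (norm_nonneg _) hs.le (by norm_num)).mp h5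

end Pool.Agent.Lib.P670edc
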