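import Pool.Agent.Lib.P670edc.Pair

set_option autoImplicit false

open Real MeasureTheory Metric

namespace Pool.Agent.Lib.P670edc

/-- The (closed radially, open angularly) sector of the disk `(c,r)` towards the disk `(c',s)`. -/
def secSet (c c' : Plane) (r s : ℝ) : Set Plane :=
  {q | q ≠ c ∧ ‖q - c‖ ≤ r ∧ ‖radial c r q - c'‖ < s}

lemma measurable_radial (c : Plane) (r : ℝ) : Measurable (radial c r) := by
  unfold radial
  fun_prop

lemma measurableSet_secSet (c c' : Plane) (r s : ℝ) : MeasurableSet (secSet c c' r s) := by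
  apply MeasurableSet.inter
  · exact (MeasurableSet.singleton c).compl
  · apply MeasurableSet.inter
    · exact measurableSet_le (measurable_id.sub_const c).norm measurable_const
    · exact measurableSet_lt ((measurable_radial c r).sub_const c').norm measurable_const

lemma volume_secSet {c c' : Plane} {r s : ℝ} (hr : 0 < r) (hs : 0 < s) (hd : c' ≠ c)
    (h2 : r < ‖c' - c‖ + s) (h3 : s < ‖c' - c‖ + r) :
    volume (secSet c c' r s) = ENNReal.ofReal (r ^ 2 * ang r s ‖c' - c‖) := by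
  have hn : 0 < ‖c' - c‖ := norm_pos_iff.mpr (sub_ne_zero.mpr hd)
  have key : ∀ q : Plane, q ≠ c → (‖radial c r q - c'‖ < s ↔
      ‖q - c‖ * ((r ^ 2 + ‖c' - c‖ ^ 2 - s ^ 2) / (2 * r)) < inner ℝ (q - c) (c' - c)) := by
    intro q hq
    have hqn : 0 < ‖q - c‖ := norm_pos_iff.mpr (sub_ne_zero.mpr hq)
    rw [← pow_lt_pow_iff_left₀ (norm_nonneg _) hs.le (by norm_num : (2:ℕ) ≠ 0),
      radial_dist_sq hr hq]
    have e1 : ‖q - c‖ * ((r ^ 2 + ‖c' - c‖ ^ 2 - s ^ 2) / (2 * r)) =
      (‖q - c‖ * (r ^ 2 + ‖c' - c‖ ^ 2 - s ^ 2)) / (2 * r) := by ring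
    have e2 : 2 * (r / ‖q - c‖) * inner ℝ (q - c) (c' - c) =
      (2 * r * inner ℝ (q - c) (c' - c)) / ‖q - c‖ := by ring
    rw [e1, e2, div_lt_iff₀ (by positivity), sub_lt_iff_lt_add, ← sub_lt_iff_lt_add',
      lt_div_iff₀ hqn]
    constructor <;> intro h <;> linarith
  rcases lt_or_ge (‖c' - c‖) (r + s) with h1 | h1
  · have hset : secSet c c' r s = (fun q => q - c) ⁻¹'
        {y : Plane | y ≠ 0 ∧ ‖y‖ ≤ r ∧ ‖y‖ * (‖c' - c‖ * cos (ang r s ‖c' - c‖)) <
          inner ℝ y (c' - c)} := by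
      ext q
      simp only [secSet, Set.mem_ofPred_eq, Set.mem_preimage]
      have hcos : ‖c' - c‖ * cos (ang r s ‖c' - c‖) =
          (r ^ 2 + ‖c' - c‖ ^ 2 - s ^ 2) / (2 * r) := by
        rw [cos_ang hr hs hn h1.le (by linarith) (by linarith)]
        field_simp
      rw [hcos, sub_ne_zero]
      constructor
      · rintro ⟨a1, a2, a3⟩; exact ⟨a1, a2, (key q a1).mp a3⟩
      · rintro ⟨a1, a2, a3⟩; exact ⟨a1, a2, (key q a1).mpr a3⟩
    have hfun : (fun q : Plane => q - c) = (fun q : Plane => q + (-c)) := by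
      funext q; rw [sub_eq_add_neg]
    rw [hset, hfun, measure_preimage_add_right,
      volume_sector hr.le (show 0 ≤ ang r s ‖c' - c‖ from arccos_nonneg _)
        (show ang r s ‖c' - c‖ ≤ π from arccos_le_pi _) (c' - c) (sub_ne_zero.mpr hd)]
  · have hempty : secSet c c' r s = ∅ := by
      rw [Set.eq_empty_iff_forall_notMem]
      rintro q ⟨a1, a2, a3⟩
      have hqn : 0 < ‖q - c‖ := norm_pos_iff.mpr (sub_ne_zero.mpr a1)
      have a4 := (key q a1).mp a3
      have a5 := real_inner_le_norm (q - c) (c' - c)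
      have a6 : ‖q - c‖ * ((r ^ 2 + ‖c' - c‖ ^ 2 - s ^ 2) / (2 * r)) < ‖q - c‖ * ‖c' - c‖ :=
        lt_of_lt_of_le a4 a5
      have a7 := lt_of_mul_lt_mul_left a6 hqn.le
      rw [div_lt_iff₀ (by positivity)] at a7
      nlinarith [mul_nonneg (by linarith : 0 ≤ ‖c' - c‖ - r - s) (by linarith : 0 ≤ ‖c' - c‖ - r + s)]
    have hang : ang r s ‖c' - c‖ = 0 := by
      unfold ang
      apply arccos_of_one_le
      rw [one_le_div (by positivity)]
      nlinarith [mul_nonneg (by linarith : 0 ≤ ‖c' - c‖ - r - s) (by linarith : 0 ≤ ‖c' - c‖ - r + s)]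
    rw [hempty, measure_empty, hang, mul_zero, ENNReal.ofReal_zero]

section
variable {n : ℕ} {μ : ℝ} {x : Fin n → Plane} {ρ : Fin n → ℝ}

lemma sep (h : IsArrangement μ x ρ) {i j : Fin n} (hij : i ≠ j) :
    ρ i + μ * ρ j ≤ ‖x j - x i‖ ∧ ρ j + μ * ρ i ≤ ‖x j - x i‖ := by
  have := h.2 i j hij
  rw [dist_comm, dist_eq_norm] at this
  exact ⟨le_trans (le_max_left _ _) this, le_trans (le_max_right _ _) this⟩

lemma mu_pos (hμ1 : sqrt 3 - 1 < μ) : 0 < μ := by
  have hs31 : 1 < sqrt 3 := by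
    rw [show (1:ℝ) = sqrt 1 from sqrt_one.symm]
    exact sqrt_lt_sqrt (by norm_num) (by norm_num)
  linarith

lemma sep_lt (hμ1 : sqrt 3 - 1 < μ) (h : IsArrangement μ x ρ) {i j : Fin n} (hij : i ≠ j) :
    ρ i < ‖x j - x i‖ ∧ ρ j < ‖x j - x i‖ := by
  have hμ := mu_pos hμ1
  obtain ⟨h1, h2⟩ := sep h hij
  have := mul_pos hμ (h.1 i)
  have := mul_pos hμ (h.1 j)
  constructor <;> linarith

lemma ne_center (hμ1 : sqrt 3 - 1 < μ) (h : IsArrangement μ x ρ) {i j : Fin n} (hij : i ≠ j) :
    x j ≠ x i := by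
  have := (sep_lt hμ1 h hij).1
  have h2 := h.1 i
  intro he
  rw [he, sub_self, norm_zero] at this
  linarith

/-- The circles meet at an obtuse angle. -/
lemma sep_sq (hμ1 : sqrt 3 - 1 < μ) (h : IsArrangement μ x ρ) {i j : Fin n} (hij : i ≠ j) :
    ρ i ^ 2 + ρ j ^ 2 ≤ ‖x j - x i‖ ^ 2 := by
  have hμ := mu_pos hμ1
  have hs3 : sqrt 3 ^ 2 = 3 := sq_sqrt (by norm_num)
  have hs31 : (17 / 10 : ℝ) < sqrt 3 := by
    apply lt_sqrt_of_sq_lt; norm_num
  have hμ7 : 7 / 10 < μ := by linarith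
  obtain ⟨h1, h2⟩ := sep h hij
  have hi := h.1 i
  have hj := h.1 j
  rcases le_total (ρ j) (ρ i) with hle | hle
  · have h3 : (ρ i + μ * ρ j) ^ 2 ≤ ‖x j - x i‖ ^ 2 := pow_le_pow_left₀ (by positivity) h1 2
    have h4 : 0 ≤ (μ - 7 / 10) * (ρ i * ρ j) := mul_nonneg (by linarith) (by positivity)
    have h5 : 0 ≤ ρ j * (ρ i - ρ j) := mul_nonneg hj.le (by linarith)
    have h6 : 0 ≤ (μ * ρ j) ^ 2 := sq_nonneg _
    have h7 : 0 < ρ i * ρ j := mul_pos hi hj
    nlinarith
  · have h3 : (ρ j + μ * ρ i) ^ 2 ≤ ‖x j - x i‖ ^ 2 := pow_le_pow_left₀ (by positivity) h2 2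
    have h4 : 0 ≤ (μ - 7 / 10) * (ρ i * ρ j) := mul_nonneg (by linarith) (by positivity)
    have h5 : 0 ≤ ρ i * (ρ j - ρ i) := mul_nonneg hi.le (by linarith)
    have h6 : 0 ≤ (μ * ρ i) ^ 2 := sq_nonneg _
    have h7 : 0 < ρ i * ρ j := mul_pos hi hj
    nlinarith

lemma no_triple (hμ1 : sqrt 3 - 1 < μ) (hμ2 : μ < 1) (h : IsArrangement μ x ρ) {i j k : Fin n}
    (hij : i ≠ j) (hjk : j ≠ k) (hik : i ≠ k) {q : Plane} (hi : ‖q - x i‖ ≤ ρ i)
    (hj : ‖q - x j‖ ≤ ρ j) (hk : ‖q - x k‖ ≤ ρ k) : False := by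
  have hne : ∀ a b : Fin n, a ≠ b → ‖q - x b‖ ≤ ρ b → x a - q ≠ 0 := by
    intro a b hab hb h0
    have h1 : q = x a := (sub_eq_zero.mp h0).symm
    rw [h1] at hb
    have := (sep_lt hμ1 h hab).2
    rw [norm_sub_rev] at this
    linarith
  have key : ∀ a b : Fin n, a ≠ b → ‖q - x a‖ ≤ ρ a → ‖q - x b‖ ≤ ρ b →
      -(‖x a - q‖ * ‖x b - q‖) / 2 ≤ inner ℝ (x a - q) (x b - q) → False := by
    intro a b hab ha hb ht
    obtain ⟨h1, h2⟩ := sep h hab
    have e1 : x b - x a = (x b - q) - (x a - q) := by abel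
    refine pair_bound (D := ‖x b - x a‖) hμ1 hμ2 (h.1 a) (h.1 b) (norm_nonneg (x a - q))
      (norm_nonneg (x b - q)) (by rw [norm_sub_rev]; exact ha) (by rw [norm_sub_rev]; exact hb)
      ht (norm_nonneg _) ?_ h1 h2
    rw [e1, norm_sub_sq_real, real_inner_comm]
    ring
  rcases exists_pair (x i - q) (x j - q) (x k - q) (hne i j hij hj) (hne j k hjk hk)
    (hne k i (Ne.symm hik) hi) with h1 | h1 | h1
  · exact key i j hij hi hj h1
  · exact key j k hjk hj hk h1
  · exact key i k hik hi hk h1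

/-- The part of the closed disk `i` seen from its center through boundary points outside all other
disks. -/
def outSet (x : Fin n → Plane) (ρ : Fin n → ℝ) (i : Fin n) : Set Plane :=
  {q | q ≠ x i ∧ ‖q - x i‖ ≤ ρ i ∧ ∀ j, j ≠ i → ρ j ≤ ‖radial (x i) (ρ i) q - x j‖}

lemma measurableSet_outSet (i : Fin n) : MeasurableSet (outSet x ρ i) := by
  apply MeasurableSet.inter
  · exact (MeasurableSet.singleton _).compl
  · apply MeasurableSet.inter
    · exact measurableSet_le (measurable_id.sub_const (x i)).norm measurable_const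
    · have : {q : Plane | ∀ j, j ≠ i → ρ j ≤ ‖radial (x i) (ρ i) q - x j‖} =
        ⋂ j : Fin n, ⋂ _ : j ≠ i, {q : Plane | ρ j ≤ ‖radial (x i) (ρ i) q - x j‖} := by
        ext q; simp
      show MeasurableSet {q : Plane | ∀ j, j ≠ i → ρ j ≤ ‖radial (x i) (ρ i) q - x j‖}
      rw [this]
      apply MeasurableSet.iInter
      intro j
      apply MeasurableSet.iInter
      intro _
      exact measurableSet_le measurable_const ((measurable_radial _ _).sub_const _).norm

lemma closedBall_decomp (hμ1 : sqrt 3 - 1 < μ) (hμ2 : μ < 1) (h : IsArrangement μ x ρ)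
    (i : Fin n) :
    volume (closedBall (x i) (ρ i)) = volume (outSet x ρ i) +
      ∑ j ∈ Finset.univ.erase i, volume (secSet (x i) (x j) (ρ i) (ρ j)) := by
  have h1 : volume (closedBall (x i) (ρ i)) = volume (outSet x ρ i ∪
      ⋃ j ∈ Finset.univ.erase i, secSet (x i) (x j) (ρ i) (ρ j)) := by
    have h2 : closedBall (x i) (ρ i) = {x i} ∪ (outSet x ρ i ∪
      ⋃ j ∈ Finset.univ.erase i, secSet (x i) (x j) (ρ i) (ρ j)) := by
      ext q
      rw [mem_closedBall, dist_eq_norm]
      constructor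
      · intro hq
        by_cases hqx : q = x i
        · left; exact hqx
        · right
          by_cases hout : ∀ j, j ≠ i → ρ j ≤ ‖radial (x i) (ρ i) q - x j‖
          · left; exact ⟨hqx, hq, hout⟩
          · right
            push Not at hout
            obtain ⟨j, hj, hlt⟩ := hout
            simp only [Set.mem_iUnion]
            exact ⟨j, Finset.mem_erase.mpr ⟨hj, Finset.mem_univ _⟩, hqx, hq, hlt⟩
      · rintro (hq | hq | hq)
        · rw [Set.mem_singleton_iff] at hq
          rw [hq, sub_self, norm_zero]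
          exact (h.1 i).le
        · exact hq.2.1
        · simp only [Set.mem_iUnion] at hq
          obtain ⟨j, _, hq⟩ := hq
          exact hq.2.1
    rw [h2]
    apply le_antisymm
    · refine le_trans (measure_union_le _ _) ?_
      rw [measure_singleton, zero_add]
    · exact measure_mono Set.subset_union_right
  have hm : ∀ j ∈ Finset.univ.erase i, MeasurableSet (secSet (x i) (x j) (ρ i) (ρ j)) :=
    fun j _ => measurableSet_secSet _ _ _ _
  rw [h1, measure_union, measure_biUnion_finset _ hm]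
  · intro j hj k hk hjk
    rw [Finset.mem_coe, Finset.mem_erase] at hj hk
    rw [Function.onFun, Set.disjoint_left]
    rintro q ⟨a1, a2, a3⟩ ⟨_, _, b3⟩
    exact no_triple hμ1 hμ2 h (Ne.symm hj.1) hjk (Ne.symm hk.1)
      (q := radial (x i) (ρ i) q) (radial_mem (h.1 i) a1).le a3.le b3.le
  · rw [Set.disjoint_left]
    rintro q ⟨a1, a2, a3⟩ hq
    simp only [Set.mem_iUnion] at hq
    obtain ⟨j, hj, b1, b2, b3⟩ := hq
    rw [Finset.mem_erase] at hj
    exact absurd b3 (not_lt.mpr (a3 j hj.1))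
  · exact Finset.measurableSet_biUnion _ hm

lemma isOpen_union : IsOpen (unionSet x ρ) := isOpen_iUnion fun _ => isOpen_ball

/-- The outer shell is, up to the centers, the union of the sets `outSet`. -/
lemma outerShell_sub (h : IsArrangement μ x ρ) :
    (⋃ i, outSet x ρ i) ⊆ outerShell x ρ ∧
      outerShell x ρ ⊆ (⋃ i, outSet x ρ i) ∪ Set.range x := by
  constructor
  · intro q hq
    rw [Set.mem_iUnion] at hq
    obtain ⟨i, a1, a2, a3⟩ := hq
    have hi := h.1 i
    have hqn : 0 < ‖q - x i‖ := norm_pos_iff.mpr (sub_ne_zero.mpr a1)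
    have hp := radial_mem hi a1
    refine ⟨i, radial (x i) (ρ i) q, ?_, ?_, ?_⟩
    · rw [mem_sphere, dist_eq_norm]; exact hp
    · rw [isOpen_union.frontier_eq]
      constructor
      · have : radial (x i) (ρ i) q ∈ closure (disk x ρ i) := by
          unfold disk
          rw [closure_ball _ hi.ne', mem_closedBall, dist_eq_norm]
          exact hp.le
        exact closure_mono (Set.subset_iUnion _ i) this
      · intro hmem
        unfold unionSet at hmem
        rw [Set.mem_iUnion] at hmem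
        obtain ⟨j, hj⟩ := hmem
        unfold disk at hj
        rw [mem_ball, dist_eq_norm] at hj
        by_cases hji : j = i
        · subst hji; linarith
        · exact absurd hj (not_lt.mpr (a3 j hji))
    · refine ⟨1 - ‖q - x i‖ / ρ i, ‖q - x i‖ / ρ i, ?_, by positivity, by ring, ?_⟩
      · rw [sub_nonneg, div_le_one hi]; exact a2
      · unfold radial
        have e : (‖q - x i‖ / ρ i) • (ρ i / ‖q - x i‖) • (q - x i) = q - x i := by
          rw [smul_smul]
          have : ‖q - x i‖ / ρ i * (ρ i / ‖q - x i‖) = 1 := by field_simp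
          rw [this, one_smul]
        rw [smul_add, e]
        module
  · rintro q ⟨i, p, hp, hpf, hq⟩
    have hi := h.1 i
    rw [isOpen_union.frontier_eq] at hpf
    obtain ⟨a, b, ha, hb, hab, rfl⟩ := hq
    rw [mem_sphere, dist_eq_norm] at hp
    have e : a • x i + b • p - x i = b • (p - x i) := by
      have : a = 1 - b := by linarith
      rw [this]; module
    by_cases hb0 : b = 0
    · right
      have ha1 : a = 1 := by linarith
      rw [hb0, ha1]
      exact ⟨i, by simp⟩
    · left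
      have hbpos : 0 < b := lt_of_le_of_ne hb (Ne.symm hb0)
      rw [Set.mem_iUnion]
      have hne : a • x i + b • p ≠ x i := by
        rw [← sub_ne_zero, e, ← norm_pos_iff, norm_smul, hp, Real.norm_eq_abs, abs_of_pos hbpos]
        positivity
      refine ⟨i, hne, ?_, ?_⟩
      · rw [e, norm_smul, hp, Real.norm_eq_abs, abs_of_pos hbpos]
        exact mul_le_of_le_one_left hi.le (by linarith)
      · have hrad : radial (x i) (ρ i) (a • x i + b • p) = p := by
          unfold radial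
          rw [e, norm_smul, hp, Real.norm_eq_abs, abs_of_pos hbpos, smul_smul]
          have : ρ i / (b * ρ i) * b = 1 := by field_simp
          rw [this, one_smul]
          abel
        intro j _
        rw [hrad]
        by_contra hcon
        push Not at hcon
        apply hpf.2
        unfold unionSet
        rw [Set.mem_iUnion]
        refine ⟨j, ?_⟩
        unfold disk
        rw [mem_ball, dist_eq_norm]
        exact hcon

lemma volume_outerShell (hμ1 : sqrt 3 - 1 < μ) (h : IsArrangement μ x ρ) :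
    volume (outerShell x ρ) = ∑ i, volume (outSet x ρ i) := by
  obtain ⟨h1, h2⟩ := outerShell_sub h
  have h3 : volume (outerShell x ρ) = volume (⋃ i, outSet x ρ i) := by
    apply le_antisymm
    · refine le_trans (measure_mono h2) (le_trans (measure_union_le _ _) ?_)
      rw [(Set.finite_range x).measure_zero, add_zero]
    · exact measure_mono h1
  rw [h3, measure_iUnion₀, tsum_fintype]
  · intro i k hik
    rw [Function.onFun]
    apply measure_mono_null _ (Measure.addHaar_sphere volume (x k) (ρ k))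
    rintro q ⟨⟨a1, a2, a3⟩, ⟨_, b2, _⟩⟩
    rw [mem_sphere, dist_eq_norm]
    have hl := lens (h.1 i) (h.1 k) a1 a2 b2 (sep_sq hμ1 h hik)
    exact le_antisymm b2 (le_trans (a3 k (Ne.symm hik)) hl)
  · intro i
    exact (measurableSet_outSet i).nullMeasurableSet

/-- The inner shell is the union of the kites. -/
lemma innerShell_eq (hμ1 : sqrt 3 - 1 < μ) (hμ2 : μ < 1) (h : IsArrangement μ x ρ) :
    innerShell x ρ = ⋃ p ∈ (Finset.univ.filter (fun p : Fin n × Fin n => p.1 < p.2)),
      kiteSet (x p.1) (x p.2) (ρ p.1) (ρ p.2) := by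
  ext q
  simp only [Set.mem_iUnion, Finset.mem_filter, Finset.mem_univ, true_and, exists_prop]
  constructor
  · rintro ⟨i, j, p, ⟨hpf, hpi, hpj, hcol, _⟩, hq⟩
    have hij : i ≠ j := by
      rintro rfl
      apply hcol
      rw [Set.insert_eq_of_mem (by simp)]
      exact collinear_pair ℝ _ _
    rw [mem_sphere, dist_eq_norm] at hpi hpj
    have hk : q ∈ kiteSet (x i) (x j) (ρ i) (ρ j) := ⟨p, hpi, hpj, hcol, hq⟩
    rcases lt_or_gt_of_ne hij with hlt | hlt
    · exact ⟨(i, j), hlt, hk⟩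
    · refine ⟨(j, i), hlt, ?_⟩
      rw [kiteSet_comm] at hk
      exact hk
  · rintro ⟨⟨i, j⟩, hlt, p, hpi, hpj, hcol, hq⟩
    simp only at hlt hpi hpj hcol hq
    have hij : i ≠ j := ne_of_lt hlt
    refine ⟨i, j, p, ⟨?_, by rw [mem_sphere, dist_eq_norm]; exact hpi,
      by rw [mem_sphere, dist_eq_norm]; exact hpj, hcol, ?_⟩, hq⟩
    · rw [isOpen_union.frontier_eq]
      constructor
      · have : p ∈ closure (disk x ρ i) := by
          unfold disk
          rw [closure_ball _ (h.1 i).ne', mem_closedBall, dist_eq_norm]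
          exact hpi.le
        exact closure_mono (Set.subset_iUnion _ i) this
      · intro hmem
        unfold unionSet at hmem
        rw [Set.mem_iUnion] at hmem
        obtain ⟨k, hk⟩ := hmem
        unfold disk at hk
        rw [mem_ball, dist_eq_norm] at hk
        by_cases hki : k = i
        · subst hki; linarith
        · by_cases hkj : k = j
          · subst hkj; linarith
          · exact no_triple hμ1 hμ2 h hij (Ne.symm hkj) (Ne.symm hki) hpi.le hpj.le hk.le
    · intro k hki hkj hk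
      rw [mem_sphere, dist_eq_norm] at hk
      exact absurd (no_triple hμ1 hμ2 h hij (Ne.symm hkj) (Ne.symm hki) hpi.le hpj.le hk.le)
        (fun h => h)

lemma kite_cover (hμ1 : sqrt 3 - 1 < μ) (h : IsArrangement μ x ρ) {i j : Fin n} (hij : i ≠ j)
    {q : Plane} (hq : q ∈ kiteSet (x i) (x j) (ρ i) (ρ j)) (hqx : q ∉ Set.range x) :
    ∃ a b : Fin n, ((a = i ∧ b = j) ∨ (a = j ∧ b = i)) ∧ ‖q - x a‖ ≤ ρ a ∧
      ‖radial (x a) (ρ a) q - x b‖ ≤ ρ b := by
  obtain ⟨p, h1, h2, _, h4⟩ := hq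
  obtain ⟨s1, s2⟩ := sep_lt hμ1 h hij
  have hqi : q ≠ x i := fun he => hqx ⟨i, he.symm⟩
  have hqj : q ≠ x j := fun he => hqx ⟨j, he.symm⟩
  rcases tri_cover (h.1 i) (h.1 j) h1 h2 s1.le s2.le h4 with ⟨e1, e2⟩ | ⟨e1, e2⟩
  · exact ⟨i, j, Or.inl ⟨rfl, rfl⟩, e1, e2 hqi⟩
  · exact ⟨j, i, Or.inr ⟨rfl, rfl⟩, e1, e2 hqj⟩

lemma volume_innerShell (hμ1 : sqrt 3 - 1 < μ) (hμ2 : μ < 1) (h : IsArrangement μ x ρ) :
    volume (innerShell x ρ) = ∑ p ∈ (Finset.univ.filter (fun p : Fin n × Fin n => p.1 < p.2)),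
      ENNReal.ofReal (kite (ρ p.1) (ρ p.2) ‖x p.2 - x p.1‖) := by
  rw [innerShell_eq hμ1 hμ2 h, measure_biUnion_finset₀]
  · apply Finset.sum_congr rfl
    rintro ⟨i, j⟩ hp
    rw [Finset.mem_filter] at hp
    have hij : i ≠ j := ne_of_lt hp.2
    obtain ⟨s1, s2⟩ := sep_lt hμ1 h hij
    exact volume_kiteSet (h.1 i) (h.1 j) (ne_center hμ1 h hij) (by linarith [h.1 j])
      (by linarith [h.1 i])
  · rintro ⟨i, j⟩ hp ⟨k, l⟩ hp' hne
    rw [Finset.mem_coe, Finset.mem_filter] at hp hp'
    have hij : i ≠ j := ne_of_lt hp.2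
    have hkl : k ≠ l := ne_of_lt hp'.2
    have hij' : i < j := hp.2
    have hkl' : k < l := hp'.2
    rw [Function.onFun]
    apply measure_mono_null _ ((Set.finite_range x).measure_zero volume)
    rintro q ⟨hq1, hq2⟩
    by_contra hqx
    obtain ⟨a, b, hab, a1, a2⟩ := kite_cover hμ1 h hij hq1 hqx
    obtain ⟨c, d, hcd, c1, c2⟩ := kite_cover hμ1 h hkl hq2 hqx
    have hqa : q ≠ x a := fun he => hqx ⟨a, he.symm⟩
    have hqc : q ≠ x c := fun he => hqx ⟨c, he.symm⟩
    have hab' : a ≠ b := by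
      rcases hab with ⟨rfl, rfl⟩ | ⟨rfl, rfl⟩
      · exact hij
      · exact Ne.symm hij
    have hcd' : c ≠ d := by
      rcases hcd with ⟨rfl, rfl⟩ | ⟨rfl, rfl⟩
      · exact hkl
      · exact Ne.symm hkl
    have hra := radial_mem (h.1 a) hqa
    have hrc := radial_mem (h.1 c) hqc
    -- the unordered pairs coincide
    have hcase : (a = c ∧ b = d) ∨ (a = d ∧ b = c) := by
      by_cases hac : a = c
      · left
        refine ⟨hac, ?_⟩
        by_contra hbd
        subst hac
        exact no_triple hμ1 hμ2 h hab' hbd hcd' hra.le a2 c2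
      · right
        have l1 := lens (h.1 a) (h.1 c) hqa a1 c1 (sep_sq hμ1 h hac)
        have l2 := lens (h.1 c) (h.1 a) hqc c1 a1 (sep_sq hμ1 h (Ne.symm hac))
        constructor
        · by_contra had
          exact no_triple hμ1 hμ2 h (Ne.symm hac) had hcd' hrc.le (le_trans l2 a1) c2
        · by_contra hbc
          exact no_triple hμ1 hμ2 h hab' hbc hac hra.le a2 (le_trans l1 c1)
    apply hne
    rcases hab with ⟨rfl, rfl⟩ | ⟨rfl, rfl⟩ <;> rcases hcd with ⟨rfl, rfl⟩ | ⟨rfl, rfl⟩ <;>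
      rcases hcase with ⟨e1, e2⟩ | ⟨e1, e2⟩ <;> subst e1 <;> subst e2 <;>
      first
        | rfl
        | exact absurd hij' (lt_asymm hkl')
  · rintro ⟨i, j⟩ hp
    rw [Finset.mem_filter] at hp
    have hij : i ≠ j := ne_of_lt hp.2
    obtain ⟨s1, s2⟩ := sep_lt hμ1 h hij
    exact (measurableSet_kiteSet (h.1 i) (h.1 j) (ne_center hμ1 h hij) (by linarith [h.1 j])
      (by linarith [h.1 i])).nullMeasurableSet

end

end Pool.Agent.Lib.P670edc
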