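import Pool.Agent.Lib.P670edc.Geometry

set_option autoImplicit false

open Real MeasureTheory Metric

namespace Pool.Agent.Lib.P670edc

/-- rotation by a quarter turn -/
noncomputable def rot (w : Plane) : Plane := !₂[-(w 1), w 0]

lemma inner_rot_self (w : Plane) : inner ℝ w (rot w) = 0 := by
  rw [PiLp.inner_apply]
  simp [rot, Fin.sum_univ_two]
  ring

lemma norm_rot (w : Plane) : ‖rot w‖ = ‖w‖ := by
  rw [EuclideanSpace.norm_eq, EuclideanSpace.norm_eq]
  congr 1
  simp [rot, Fin.sum_univ_two]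
  ring

lemma decomp (z w : Plane) :
    ‖w‖ ^ 2 • z = inner ℝ z w • w + inner ℝ z (rot w) • rot w := by
  rw [EuclideanSpace.norm_sq_eq, PiLp.inner_apply, PiLp.inner_apply]
  ext i
  fin_cases i
  · simp [rot, Fin.sum_univ_two]
    ring
  · simp [rot, Fin.sum_univ_two]
    ring

lemma inner_sq_add (z w : Plane) :
    inner ℝ z w ^ 2 + inner ℝ z (rot w) ^ 2 = ‖z‖ ^ 2 * ‖w‖ ^ 2 := by
  rw [EuclideanSpace.norm_sq_eq, EuclideanSpace.norm_sq_eq, PiLp.inner_apply, PiLp.inner_apply]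
  simp [rot, Fin.sum_univ_two]
  ring

section
variable {c c' p q : Plane} {r s d : ℝ}

lemma inner_of_dists (hp : ‖p - c‖ = r) (hp' : ‖p - c'‖ = s) :
    inner ℝ (p - c) (c' - c) = (r ^ 2 + ‖c' - c‖ ^ 2 - s ^ 2) / 2 := by
  have h1 : p - c' = (p - c) - (c' - c) := by abel
  have h2 : s ^ 2 = r ^ 2 + ‖c' - c‖ ^ 2 - 2 * inner ℝ (p - c) (c' - c) := by
    rw [← hp', h1, norm_sub_sq_real, hp]; ring
  linarith

lemma inner_rot_sq (hp : ‖p - c‖ = r) (hp' : ‖p - c'‖ = s) :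
    inner ℝ (p - c) (rot (c' - c)) ^ 2 =
      r ^ 2 * s ^ 2 - ((r ^ 2 + s ^ 2 - ‖c' - c‖ ^ 2) / 2) ^ 2 := by
  have h1 := inner_sq_add (p - c) (c' - c)
  rw [inner_of_dists hp hp', hp] at h1
  linear_combination h1

/-- the two candidate intersection points -/
noncomputable def cross (c c' : Plane) (r s ε : ℝ) : Plane :=
  c + (((r ^ 2 + ‖c' - c‖ ^ 2 - s ^ 2) / 2 / ‖c' - c‖ ^ 2) • (c' - c) +
    (ε * kite r s ‖c' - c‖ / ‖c' - c‖ ^ 2) • rot (c' - c))

lemma eq_cross (hd : c' ≠ c) (hp : ‖p - c‖ = r) (hp' : ‖p - c'‖ = s) :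
    p = cross c c' r s 1 ∨ p = cross c c' r s (-1) := by
  have hn : 0 < ‖c' - c‖ := norm_pos_iff.mpr (sub_ne_zero.mpr hd)
  have h1 := inner_rot_sq hp hp'
  have hk : kite r s ‖c' - c‖ ^ 2 =
      r ^ 2 * s ^ 2 - ((r ^ 2 + s ^ 2 - ‖c' - c‖ ^ 2) / 2) ^ 2 := by
    unfold kite
    rw [sq_sqrt]
    rw [← h1]; positivity
  have h2 : inner ℝ (p - c) (rot (c' - c)) = kite r s ‖c' - c‖ ∨
      inner ℝ (p - c) (rot (c' - c)) = -kite r s ‖c' - c‖ := by
    apply sq_eq_sq_iff_eq_or_eq_neg.mp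
    rw [h1, hk]
  have h3 := decomp (p - c) (c' - c)
  rw [inner_of_dists hp hp'] at h3
  have hp3 : p - c = (‖c' - c‖ ^ 2)⁻¹ • (‖c' - c‖ ^ 2 • (p - c)) := by
    rw [smul_smul, inv_mul_cancel₀ (by positivity), one_smul]
  rcases h2 with h2 | h2
  · left
    unfold cross
    rw [← sub_eq_iff_eq_add', hp3, h3, h2, smul_add, smul_smul, smul_smul]
    congr 2 <;> ring
  · right
    unfold cross
    rw [← sub_eq_iff_eq_add', hp3, h3, h2, smul_add, smul_smul, smul_smul]
    congr 2 <;> ring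

lemma cross_sub (c c' : Plane) (r s ε : ℝ) : cross c c' r s ε - c =
    ((r ^ 2 + ‖c' - c‖ ^ 2 - s ^ 2) / 2 / ‖c' - c‖ ^ 2) • (c' - c) +
    (ε * kite r s ‖c' - c‖ / ‖c' - c‖ ^ 2) • rot (c' - c) := by
  unfold cross; rw [add_sub_cancel_left]

lemma inner_cross (hd : c' ≠ c) (ε : ℝ) :
    inner ℝ (cross c c' r s ε - c) (c' - c) = (r ^ 2 + ‖c' - c‖ ^ 2 - s ^ 2) / 2 := by
  have hn : 0 < ‖c' - c‖ := norm_pos_iff.mpr (sub_ne_zero.mpr hd)
  rw [cross_sub, inner_add_left, inner_smul_left, inner_smul_left, real_inner_self_eq_norm_sq,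
    real_inner_comm, inner_rot_self]
  simp only [conj_trivial]
  field_simp
  ring

lemma inner_cross_rot (hd : c' ≠ c) (ε : ℝ) :
    inner ℝ (cross c c' r s ε - c) (rot (c' - c)) = ε * kite r s ‖c' - c‖ := by
  have hn : 0 < ‖c' - c‖ := norm_pos_iff.mpr (sub_ne_zero.mpr hd)
  rw [cross_sub, inner_add_left, inner_smul_left, inner_smul_left, real_inner_self_eq_norm_sq,
    inner_rot_self, norm_rot]
  simp only [conj_trivial]
  field_simp
  ring

lemma cross_norm (hr : 0 < r) (hs : 0 < s) (hd : c' ≠ c) (h1 : ‖c' - c‖ < r + s)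
    (h2 : r < ‖c' - c‖ + s) (h3 : s < ‖c' - c‖ + r) {ε : ℝ} (hε : ε ^ 2 = 1) :
    ‖cross c c' r s ε - c‖ = r ∧ ‖cross c c' r s ε - c'‖ = s := by
  have hn : 0 < ‖c' - c‖ := norm_pos_iff.mpr (sub_ne_zero.mpr hd)
  have hk : kite r s ‖c' - c‖ ^ 2 =
      r ^ 2 * s ^ 2 - ((r ^ 2 + s ^ 2 - ‖c' - c‖ ^ 2) / 2) ^ 2 := by
    unfold kite
    exact sq_sqrt (kite_sq_pos hr hs h1 h2 h3).le
  have e1 := inner_sq_add (cross c c' r s ε - c) (c' - c)
  rw [inner_cross hd, inner_cross_rot hd, mul_pow, hε, hk] at e1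
  have e2 : ‖cross c c' r s ε - c‖ ^ 2 = r ^ 2 := by
    have : (‖cross c c' r s ε - c‖ ^ 2 - r ^ 2) * ‖c' - c‖ ^ 2 = 0 := by linear_combination -e1
    rcases mul_eq_zero.mp this with h | h
    · linarith
    · exfalso; exact (pow_pos hn 2).ne' h
  have e3 : ‖cross c c' r s ε - c‖ = r :=
    (pow_left_inj₀ (norm_nonneg _) hr.le (by norm_num)).mp e2
  refine ⟨e3, ?_⟩
  have h4 : cross c c' r s ε - c' = (cross c c' r s ε - c) - (c' - c) := by abel
  have e4 : ‖cross c c' r s ε - c'‖ ^ 2 = s ^ 2 := by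
    rw [h4, norm_sub_sq_real, e3, inner_cross hd]; ring
  exact (pow_left_inj₀ (norm_nonneg _) hs.le (by norm_num)).mp e4

lemma not_collinear (hd : c' ≠ c) (hk : inner ℝ (p - c) (rot (c' - c)) ≠ 0) :
    ¬ Collinear ℝ ({c, c', p} : Set Plane) := by
  intro h
  rw [collinear_iff_of_mem (p₀ := c) (by simp)] at h
  obtain ⟨v, hv⟩ := h
  obtain ⟨a, ha⟩ := hv c' (by simp)
  obtain ⟨b, hb⟩ := hv p (by simp)
  have ha' : c' - c = a • v := by rw [ha]; simp
  have hb' : p - c = b • v := by rw [hb]; simp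
  have ha0 : a ≠ 0 := by
    intro h0
    rw [h0, zero_smul] at ha'
    exact hd (sub_eq_zero.mp ha')
  have hpc : p - c = (b / a) • (c' - c) := by
    rw [hb', ha', smul_smul, div_mul_cancel₀ _ ha0]
  apply hk
  rw [hpc, inner_smul_left, inner_rot_self, mul_zero]

lemma mem_tri : q ∈ convexHull ℝ ({p, c, c'} : Set Plane) ↔
    ∃ β γ : ℝ, 0 ≤ β ∧ 0 ≤ γ ∧ β + γ ≤ 1 ∧ q = c + (β • (c' - c) + γ • (p - c)) := by
  have hset : ({p, c, c'} : Set Plane) = {c, c', p} := by
    ext y; simp only [Set.mem_insert_iff, Set.mem_singleton_iff]; tauto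
  rw [hset, convexHull_triple]
  constructor
  · rintro ⟨_, ⟨v, ⟨h0, h1, h2⟩, rfl⟩, rfl⟩
    exact ⟨v 0, v 1, h0, h1, h2, by simp only [linMap_apply]⟩
  · rintro ⟨β, γ, hβ, hγ, hβγ, rfl⟩
    refine ⟨_, ⟨!₂[β, γ], ⟨by simpa using hβ, by simpa using hγ, by simpa using hβγ⟩, rfl⟩, ?_⟩
    simp only [linMap_apply]
    simp

/-- Every point of the triangle `p c c'` lies in one of the two closed sectors. -/
lemma tri_cover (hr : 0 < r) (hs : 0 < s) (hp : ‖p - c‖ = r) (hp' : ‖p - c'‖ = s)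
    (hrd : r ≤ ‖c' - c‖) (hsd : s ≤ ‖c' - c‖) (hq : q ∈ convexHull ℝ ({p, c, c'} : Set Plane)) :
    (‖q - c‖ ≤ r ∧ (q ≠ c → ‖radial c r q - c'‖ ≤ s)) ∨
      (‖q - c'‖ ≤ s ∧ (q ≠ c' → ‖radial c' s q - c‖ ≤ r)) := by
  obtain ⟨β, γ, hβ, hγ, hβγ, rfl⟩ := mem_tri.mp hq
  rcases le_total (inner ℝ (β • (c' - c) + γ • (p - c)) (c' - c)) (inner ℝ (p - c) (c' - c))
    with h | h
  · left
    have := tri_side hr hs hp hp' hrd hsd hβ hγ hβγ h
    refine ⟨?_, this.2⟩
    rw [add_sub_cancel_left]; exact this.1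
  · right
    have e1 : c + (β • (c' - c) + γ • (p - c)) =
        c' + ((1 - β - γ) • (c - c') + γ • (p - c')) := by module
    have hsw : ‖c - c'‖ = ‖c' - c‖ := norm_sub_rev _ _
    have h' : inner ℝ ((1 - β - γ) • (c - c') + γ • (p - c')) (c - c') ≤
        inner ℝ (p - c') (c - c') := by
      have e2 : (1 - β - γ) • (c - c') + γ • (p - c') =
          (β • (c' - c) + γ • (p - c)) - (c' - c) := by module
      have e3 : p - c' = (p - c) - (c' - c) := by abel
      have e4 : c - c' = -(c' - c) := by abel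
      have k1 := inner_sub_left (𝕜 := ℝ) (β • (c' - c) + γ • (p - c)) (c' - c) (c' - c)
      have k2 := inner_sub_left (𝕜 := ℝ) (p - c) (c' - c) (c' - c)
      rw [e2, e3, e4, inner_neg_right, inner_neg_right, k1, k2]
      linarith
    have := tri_side hs hr hp' hp (by rw [hsw]; exact hsd) (by rw [hsw]; exact hrd)
      (by linarith : 0 ≤ 1 - β - γ) hγ (by linarith) h'
    rw [e1]
    refine ⟨?_, this.2⟩
    rw [add_sub_cancel_left]; exact this.1

/-- The union of the nondegenerate triangles spanned by `c`, `c'` and a common point of the two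
circles. -/
def kiteSet (c c' : Plane) (r s : ℝ) : Set Plane :=
  {q | ∃ p, ‖p - c‖ = r ∧ ‖p - c'‖ = s ∧ ¬ Collinear ℝ ({c, c', p} : Set Plane) ∧
    q ∈ convexHull ℝ ({p, c, c'} : Set Plane)}

lemma kiteSet_comm (c c' : Plane) (r s : ℝ) : kiteSet c c' r s = kiteSet c' c s r := by
  have key : ∀ (c c' : Plane) (r s : ℝ), kiteSet c c' r s ⊆ kiteSet c' c s r := by
    rintro c c' r s q ⟨p, h1, h2, h3, h4⟩
    refine ⟨p, h2, h1, ?_, ?_⟩
    · rwa [show ({c', c, p} : Set Plane) = {c, c', p} by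
        ext y; simp only [Set.mem_insert_iff, Set.mem_singleton_iff]; tauto]
    · rwa [show ({p, c', c} : Set Plane) = {p, c, c'} by
        ext y; simp only [Set.mem_insert_iff, Set.mem_singleton_iff]; tauto]
  exact Set.Subset.antisymm (key _ _ _ _) (key _ _ _ _)

lemma kiteSet_far (h : r + s ≤ ‖c' - c‖) : kiteSet c c' r s = ∅ := by
  rw [Set.eq_empty_iff_forall_notMem]
  rintro q ⟨p, h1, h2, h3, _⟩
  apply h3
  have hd : dist c p + dist p c' = dist c c' := by
    apply le_antisymm _ (dist_triangle _ _ _)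
    rw [dist_comm c p, dist_eq_norm, dist_eq_norm, h1, h2, dist_comm, dist_eq_norm]
    exact h
  have hw : Wbtw ℝ c p c' := dist_add_dist_eq_iff.mp hd
  have hc := hw.collinear
  rwa [show ({c, c', p} : Set Plane) = {c, p, c'} by
        ext y; simp only [Set.mem_insert_iff, Set.mem_singleton_iff]; tauto]

lemma volume_tri (hp : ‖p - c‖ = r) (hp' : ‖p - c'‖ = s) :
    volume (convexHull ℝ ({p, c, c'} : Set Plane)) = ENNReal.ofReal (kite r s ‖c' - c‖ / 2) := by
  rw [volume_triangle]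
  congr 2
  unfold kite
  congr 1
  have h1 : inner ℝ (c - p) (c' - p) = (r ^ 2 + s ^ 2 - ‖c' - c‖ ^ 2) / 2 := by
    have e1 : c' - c = (c' - p) - (c - p) := by abel
    have e2 : ‖c' - c‖ ^ 2 = s ^ 2 + r ^ 2 - 2 * inner ℝ (c' - p) (c - p) := by
      conv_lhs => rw [e1]
      rw [norm_sub_sq_real, norm_sub_rev c' p, norm_sub_rev c p, hp, hp']
      ring
    rw [real_inner_comm]
    linarith
  rw [h1, norm_sub_rev c p, norm_sub_rev c' p, hp, hp']

lemma null_line (c v : Plane) (hv : v ≠ 0) :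
    volume {q : Plane | inner ℝ (q - c) v = 0} = 0 := by
  have hset : {q : Plane | inner ℝ (q - c) v = 0} =
      ((AffineSubspace.mk' c (ℝ ∙ v)ᗮ : AffineSubspace ℝ Plane) : Set Plane) := by
    ext q
    rw [SetLike.mem_coe, AffineSubspace.mem_mk', Submodule.mem_orthogonal_singleton_iff_inner_left]
    rfl
  rw [hset]
  apply Measure.addHaar_affineSubspace
  intro htop
  have h1 : c + v ∈ (AffineSubspace.mk' c (ℝ ∙ v)ᗮ : AffineSubspace ℝ Plane) := by
    rw [htop]; exact AffineSubspace.mem_top ℝ Plane _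
  rw [AffineSubspace.mem_mk', Submodule.mem_orthogonal_singleton_iff_inner_left] at h1
  simp only [vsub_eq_sub, add_sub_cancel_left, real_inner_self_eq_norm_sq] at h1
  exact hv (norm_eq_zero.mp (pow_eq_zero_iff (by norm_num) |>.mp h1))

lemma kiteSet_eq (hr : 0 < r) (hs : 0 < s) (hd : c' ≠ c) (h1 : ‖c' - c‖ < r + s)
    (h2 : r < ‖c' - c‖ + s) (h3 : s < ‖c' - c‖ + r) :
    kiteSet c c' r s = convexHull ℝ ({cross c c' r s 1, c, c'} : Set Plane) ∪
      convexHull ℝ ({cross c c' r s (-1), c, c'} : Set Plane) := by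
  have hk : 0 < kite r s ‖c' - c‖ := by
    unfold kite
    exact sqrt_pos.mpr (kite_sq_pos hr hs h1 h2 h3)
  ext q
  constructor
  · rintro ⟨p, hp, hp', _, hq⟩
    rcases eq_cross hd hp hp' with h | h
    · left; rw [← h]; exact hq
    · right; rw [← h]; exact hq
  · rintro (hq | hq)
    · obtain ⟨e1, e2⟩ := cross_norm hr hs hd h1 h2 h3 (ε := 1) (by norm_num)
      refine ⟨_, e1, e2, not_collinear hd ?_, hq⟩
      rw [inner_cross_rot hd]
      simpa using hk.ne'
    · obtain ⟨e1, e2⟩ := cross_norm hr hs hd h1 h2 h3 (ε := -1) (by norm_num)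
      refine ⟨_, e1, e2, not_collinear hd ?_, hq⟩
      rw [inner_cross_rot hd]
      simpa using hk.ne'

lemma measurableSet_tri (p c c' : Plane) :
    MeasurableSet (convexHull ℝ ({p, c, c'} : Set Plane)) :=
  ((Set.toFinite ({p, c, c'} : Set Plane)).isCompact_convexHull (𝕜 := ℝ)).isClosed.measurableSet

lemma measurableSet_kiteSet (hr : 0 < r) (hs : 0 < s) (hd : c' ≠ c)
    (h2 : r < ‖c' - c‖ + s) (h3 : s < ‖c' - c‖ + r) : MeasurableSet (kiteSet c c' r s) := by
  rcases lt_or_ge (‖c' - c‖) (r + s) with h1 | h1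
  · rw [kiteSet_eq hr hs hd h1 h2 h3]
    exact (measurableSet_tri _ _ _).union (measurableSet_tri _ _ _)
  · rw [kiteSet_far h1]; exact MeasurableSet.empty

lemma volume_kiteSet (hr : 0 < r) (hs : 0 < s) (hd : c' ≠ c)
    (h2 : r < ‖c' - c‖ + s) (h3 : s < ‖c' - c‖ + r) :
    volume (kiteSet c c' r s) = ENNReal.ofReal (kite r s ‖c' - c‖) := by
  rcases lt_or_ge (‖c' - c‖) (r + s) with h1 | h1
  · rw [kiteSet_eq hr hs hd h1 h2 h3]
    obtain ⟨e1, e2⟩ := cross_norm hr hs hd h1 h2 h3 (ε := 1) (by norm_num)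
    obtain ⟨e3, e4⟩ := cross_norm hr hs hd h1 h2 h3 (ε := -1) (by norm_num)
    have hk : 0 < kite r s ‖c' - c‖ := by
      unfold kite
      exact sqrt_pos.mpr (kite_sq_pos hr hs h1 h2 h3)
    have hrot : rot (c' - c) ≠ 0 := by
      rw [← norm_pos_iff, norm_rot, norm_pos_iff]
      exact sub_ne_zero.mpr hd
    have hdisj : AEDisjoint volume (convexHull ℝ ({cross c c' r s 1, c, c'} : Set Plane))
        (convexHull ℝ ({cross c c' r s (-1), c, c'} : Set Plane)) := by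
      apply measure_mono_null _ (null_line c (rot (c' - c)) hrot)
      rintro q ⟨hq1, hq2⟩
      obtain ⟨β, γ, hβ, hγ, hβγ, hq⟩ := mem_tri.mp hq1
      obtain ⟨β', γ', hβ', hγ', hβγ', hq'⟩ := mem_tri.mp hq2
      have i1 : inner ℝ (q - c) (rot (c' - c)) = γ * kite r s ‖c' - c‖ := by
        rw [hq, add_sub_cancel_left, inner_add_left, inner_smul_left, inner_smul_left,
          inner_rot_self, inner_cross_rot hd]
        simp
      have i2 : inner ℝ (q - c) (rot (c' - c)) = -(γ' * kite r s ‖c' - c‖) := by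
        rw [hq', add_sub_cancel_left, inner_add_left, inner_smul_left, inner_smul_left,
          inner_rot_self, inner_cross_rot hd]
        simp
      show inner ℝ (q - c) (rot (c' - c)) = 0
      have j1 : 0 ≤ γ * kite r s ‖c' - c‖ := mul_nonneg hγ hk.le
      have j2 : 0 ≤ γ' * kite r s ‖c' - c‖ := mul_nonneg hγ' hk.le
      linarith
    rw [measure_union₀ (measurableSet_tri _ _ _).nullMeasurableSet hdisj, volume_tri e1 e2,
      volume_tri e3 e4, ← ENNReal.ofReal_add (by positivity) (by positivity)]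
    congr 1
    ring
  · rw [kiteSet_far h1, measure_empty]
    have : kite r s ‖c' - c‖ = 0 := by
      unfold kite
      apply sqrt_eq_zero_of_nonpos
      have h4 := heron r s ‖c' - c‖
      have h5 : (r + s + ‖c' - c‖) * (r + s - ‖c' - c‖) * (‖c' - c‖ + r - s) *
          (‖c' - c‖ + s - r) ≤ 0 := by
        apply mul_nonpos_of_nonpos_of_nonneg _ (by linarith)
        apply mul_nonpos_of_nonpos_of_nonneg _ (by linarith)
        apply mul_nonpos_of_nonneg_of_nonpos _ (by linarith)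
        have := norm_nonneg (c' - c)
        linarith
      linarith
    rw [this, ENNReal.ofReal_zero]

end

end Pool.Agent.Lib.P670edc
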