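import Pool.Agent.Lib.P670edc.Defs

set_option autoImplicit false

open Real MeasureTheory

namespace Pool.Agent.Lib.P670edc

/-- Area of a circular sector in the complex plane. -/
lemma volume_sector_complex {ρ α : ℝ} (hρ : 0 ≤ ρ) (h0 : 0 ≤ α) (hα : α ≤ π) :
    volume {z : ℂ | z ≠ 0 ∧ ‖z‖ ≤ ρ ∧ ‖z‖ * cos α < z.re} = ENNReal.ofReal (ρ ^ 2 * α) := by
  set S : Set ℂ := {z : ℂ | z ≠ 0 ∧ ‖z‖ ≤ ρ ∧ ‖z‖ * cos α < z.re} with hS
  have hSm : MeasurableSet S := by
    apply MeasurableSet.inter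
    · exact (MeasurableSet.singleton (0 : ℂ)).compl
    · apply MeasurableSet.inter
      · exact measurableSet_le measurable_norm measurable_const
      · exact measurableSet_lt (measurable_norm.mul_const _) Complex.measurable_re
  have h1 : volume S = ∫⁻ z, S.indicator 1 z := by
    rw [lintegral_indicator_one hSm]
  rw [h1, ← Complex.lintegral_comp_polarCoord_symm]
  have hT : MeasurableSet (Set.Ioc 0 ρ ×ˢ Set.Ioo (-α) α) :=
    measurableSet_Ioc.prod measurableSet_Ioo
  have h2 : ∀ p ∈ polarCoord.target,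
      ENNReal.ofReal p.1 • S.indicator (1 : ℂ → ENNReal) (Complex.polarCoord.symm p) =
      (Set.Ioc 0 ρ ×ˢ Set.Ioo (-α) α).indicator (fun p : ℝ × ℝ => ENNReal.ofReal p.1) p := by
    rintro ⟨r, θ⟩ hp
    have hp' : 0 < r ∧ (-π < θ ∧ θ < π) := by
      have := hp
      simp only [polarCoord_target, Set.mem_prod, Set.mem_Ioi, Set.mem_Ioo] at this
      exact this
    obtain ⟨hr, hθ1, hθ2⟩ := hp'
    have hnorm : ‖Complex.polarCoord.symm (r, θ)‖ = r := by
      rw [Complex.norm_polarCoord_symm]; exact abs_of_pos hr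
    have hre : (Complex.polarCoord.symm (r, θ)).re = r * cos θ := by
      rw [Complex.polarCoord_symm_apply]
      simp [Complex.cos_ofReal_re]
    have hiff : Complex.polarCoord.symm (r, θ) ∈ S ↔ (r, θ) ∈ Set.Ioc 0 ρ ×ˢ Set.Ioo (-α) α := by
      rw [hS]
      simp only [Set.mem_ofPred_eq, Set.mem_prod, Set.mem_Ioc, Set.mem_Ioo, hnorm, hre]
      have hne : Complex.polarCoord.symm (r, θ) ≠ 0 := by
        rw [← norm_pos_iff, hnorm]; exact hr
      have hcos : r * cos α < r * cos θ ↔ (-α < θ ∧ θ < α) := by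
        rw [mul_lt_mul_iff_right₀ hr, ← abs_lt, ← cos_abs θ]
        constructor
        · intro h
          by_contra hcon
          push Not at hcon
          have := cos_le_cos_of_nonneg_of_le_pi h0 (abs_le.mpr ⟨by linarith, hθ2.le⟩) hcon
          linarith
        · intro h
          exact cos_lt_cos_of_nonneg_of_le_pi (abs_nonneg θ) hα h
      constructor
      · rintro ⟨_, h1, h2⟩
        exact ⟨⟨hr, h1⟩, hcos.mp h2⟩
      · rintro ⟨⟨_, h1⟩, h2⟩
        exact ⟨hne, h1, hcos.mpr h2⟩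
    by_cases hin : Complex.polarCoord.symm (r, θ) ∈ S
    · rw [Set.indicator_of_mem hin, Set.indicator_of_mem (hiff.mp hin)]
      simp
    · rw [Set.indicator_of_notMem hin, Set.indicator_of_notMem (fun h => hin (hiff.mpr h))]
      simp
  have hpt : MeasurableSet polarCoord.target := polarCoord.open_target.measurableSet
  rw [setLIntegral_congr_fun hpt h2, lintegral_indicator hT, Measure.restrict_restrict hT]
  have h3 : (Set.Ioc 0 ρ ×ˢ Set.Ioo (-α) α) ∩ polarCoord.target =
      Set.Ioc 0 ρ ×ˢ Set.Ioo (-α) α := by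
    apply Set.inter_eq_left.mpr
    rintro ⟨r, θ⟩ ⟨⟨h1, _⟩, h3, h4⟩
    simp only [polarCoord_target, Set.mem_prod, Set.mem_Ioi, Set.mem_Ioo]
    simp only at h1 h3 h4
    exact ⟨h1, by linarith, by linarith⟩
  rw [h3, Measure.volume_eq_prod, ← Measure.prod_restrict]
  have h4 := lintegral_prod_mul (μ := (volume.restrict (Set.Ioc 0 ρ) : Measure ℝ))
    (ν := (volume.restrict (Set.Ioo (-α) α) : Measure ℝ))
    (f := fun r : ℝ => ENNReal.ofReal r) (g := fun _ : ℝ => 1)
    ENNReal.measurable_ofReal.aemeasurable measurable_const.aemeasurable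
  simp only [mul_one] at h4
  rw [h4]
  have h5 : ∫⁻ r in Set.Ioc 0 ρ, ENNReal.ofReal r = ENNReal.ofReal (ρ ^ 2 / 2) := by
    rw [← ofReal_integral_eq_lintegral_ofReal]
    · congr 1
      rw [← intervalIntegral.integral_of_le hρ, integral_id]
      ring
    · have : IntervalIntegrable (fun x : ℝ => x) volume 0 ρ := intervalIntegral.intervalIntegrable_id
      exact (intervalIntegrable_iff_integrableOn_Ioc_of_le hρ).mp this
    · apply (ae_restrict_iff' measurableSet_Ioc).mpr
      exact Filter.Eventually.of_forall fun x hx => hx.1.le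
  rw [h5, lintegral_one, Measure.restrict_apply MeasurableSet.univ, Set.univ_inter,
    Real.volume_Ioo, ← ENNReal.ofReal_mul (by positivity)]
  congr 1
  ring

/-- a linear isometry onto `ℂ` taking a given nonzero vector to the positive real axis. -/
lemma exists_isometry (w : Plane) (hw : w ≠ 0) : ∃ φ : Plane ≃ₗᵢ[ℝ] ℂ, φ w = (‖w‖ : ℂ) := by
  have hn : ‖w‖ ≠ 0 := norm_ne_zero_iff.mpr hw
  set u : Plane := ‖w‖⁻¹ • w with hu
  have hun : ‖u‖ = 1 := by
    rw [hu, norm_smul, norm_inv, norm_norm, inv_mul_cancel₀ hn]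
  have hort : Orthonormal ℝ (Set.domRestrict ({0} : Set (Fin 2)) (fun _ : Fin 2 => u)) := by
    constructor
    · intro i; exact hun
    · intro i j hij
      exact absurd (Subsingleton.elim i j) hij
  obtain ⟨b, hb⟩ := hort.exists_orthonormalBasis_extension_of_card_eq (by simp)
  have hb0 : b 0 = u := hb 0 rfl
  refine ⟨b.repr.trans Complex.orthonormalBasisOneI.repr.symm, ?_⟩
  have h1 : w = ‖w‖ • b 0 := by
    rw [hb0, hu, smul_smul, mul_inv_cancel₀ hn, one_smul]
  have h2 : (b.repr.trans Complex.orthonormalBasisOneI.repr.symm) (b 0) = 1 := by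
    rw [LinearIsometryEquiv.trans_apply, b.repr_self, OrthonormalBasis.repr_symm_single]
    simp
  conv_lhs => rw [h1]
  rw [map_smul, h2]
  simp

/-- Area of a circular sector in the plane. -/
lemma volume_sector {ρ α : ℝ} (hρ : 0 ≤ ρ) (h0 : 0 ≤ α) (hα : α ≤ π) (w : Plane) (hw : w ≠ 0) :
    volume {y : Plane | y ≠ 0 ∧ ‖y‖ ≤ ρ ∧ ‖y‖ * (‖w‖ * cos α) < inner ℝ y w} =
      ENNReal.ofReal (ρ ^ 2 * α) := by
  obtain ⟨φ, hφ⟩ := exists_isometry w hw
  have hwn : 0 < ‖w‖ := norm_pos_iff.mpr hw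
  have hmp : MeasurePreserving φ volume volume := φ.measurePreserving
  have hset : {y : Plane | y ≠ 0 ∧ ‖y‖ ≤ ρ ∧ ‖y‖ * (‖w‖ * cos α) < inner ℝ y w} =
      φ ⁻¹' {z : ℂ | z ≠ 0 ∧ ‖z‖ ≤ ρ ∧ ‖z‖ * cos α < z.re} := by
    ext y
    simp only [Set.mem_ofPred_eq, Set.mem_preimage, LinearIsometryEquiv.norm_map]
    have h1 : φ y ≠ 0 ↔ y ≠ 0 := by
      rw [ne_eq, ne_eq, LinearIsometryEquiv.map_eq_zero_iff]
    have h2 : inner ℝ y w = ‖w‖ * (φ y).re := by
      rw [← φ.inner_map_map y w, hφ, Complex.inner]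
      simp
    rw [h1, h2]
    have h3 : ‖y‖ * (‖w‖ * cos α) = ‖w‖ * (‖y‖ * cos α) := by ring
    rw [h3, mul_lt_mul_iff_right₀ hwn]
  rw [hset, hmp.measure_preimage_emb φ.toHomeomorph.measurableEmbedding,
    volume_sector_complex hρ h0 hα]

end Pool.Agent.Lib.P670edc
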